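import Mathlib

set_option autoImplicit false

namespace Pool.Agent.H333

open Set Topology

/-- arch functions -/
noncomputable def hh (m : ℕ) (x : ℝ) : ℝ := |Real.sin (2 ^ m * Real.pi * x)| / 4 ^ m

theorem hh_nonneg (m : ℕ) (x : ℝ) : 0 ≤ hh m x := by unfold hh; positivity

theorem hh_cont (m : ℕ) : Continuous (hh m) := by unfold hh; fun_prop

theorem hh_succ (m : ℕ) (x : ℝ) : hh (m + 1) x ≤ hh m x / 2 := by
  unfold hh
  have h1 : (2:ℝ) ^ (m + 1) * Real.pi * x = 2 * (2 ^ m * Real.pi * x) := by ring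
  rw [h1, Real.sin_two_mul, abs_mul, abs_mul, abs_two]
  have h2 := Real.abs_cos_le_one (2 ^ m * Real.pi * x)
  have h3 := abs_nonneg (Real.sin (2 ^ m * Real.pi * x))
  rw [div_div, div_le_div_iff₀ (by positivity) (by positivity)]
  have h4 : 2 * |Real.sin (2 ^ m * Real.pi * x)| * |Real.cos (2 ^ m * Real.pi * x)| ≤
      2 * |Real.sin (2 ^ m * Real.pi * x)| := by nlinarith
  calc 2 * |Real.sin (2 ^ m * Real.pi * x)| * |Real.cos (2 ^ m * Real.pi * x)| * (4 ^ m * 2)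
      ≤ 2 * |Real.sin (2 ^ m * Real.pi * x)| * (4 ^ m * 2) := by gcongr
    _ = |Real.sin (2 ^ m * Real.pi * x)| * 4 ^ (m + 1) := by ring

theorem hh_anti {m k : ℕ} (h : m ≤ k) (x : ℝ) : hh k x ≤ hh m x := by
  induction k, h using Nat.le_induction with
  | base => exact le_rfl
  | succ k _ ih =>
    have := hh_succ k x
    have := hh_nonneg k x
    linarith

theorem hh_lt {m k : ℕ} (h : m < k) (x : ℝ) : hh k x ≤ hh m x / 2 :=
  (hh_anti h x).trans (hh_succ m x)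

theorem hh_le (m : ℕ) (x : ℝ) : hh m x ≤ 1 / 4 ^ m := by
  unfold hh
  gcongr
  exact Real.abs_sin_le_one _

theorem hh_eq_zero_iff (m : ℕ) (x : ℝ) : hh m x = 0 ↔ ∃ j : ℤ, x = j / 2 ^ m := by
  unfold hh
  rw [div_eq_zero_iff, abs_eq_zero, Real.sin_eq_zero_iff]
  have h4 : (4:ℝ) ^ m ≠ 0 := by positivity
  have h2 : (2:ℝ) ^ m ≠ 0 := by positivity
  have hpi := Real.pi_ne_zero
  simp only [h4, or_false]
  constructor
  · rintro ⟨j, hj⟩
    refine ⟨j, ?_⟩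
    rw [eq_div_iff h2]
    have : (j : ℝ) * Real.pi = (x * 2 ^ m) * Real.pi := by rw [hj]; ring
    exact (mul_right_cancel₀ hpi this).symm
  · rintro ⟨j, hj⟩
    refine ⟨j, ?_⟩
    rw [hj]; field_simp

/-- the square -/
def SS : Set (ℝ × ℝ) := Icc (-1:ℝ) 0 ×ˢ Icc (0:ℝ) 1

/-- the arch continuum -/
def LL : Set (ℝ × ℝ) := {p | p.1 ∈ Icc (0:ℝ) 1 ∧ (p.2 = 0 ∨ ∃ m, p.2 = hh m p.1)}

/-- the example -/
def XX : Set (ℝ × ℝ) := SS ∪ LL

theorem SS_compact : IsCompact SS := isCompact_Icc.prod isCompact_Icc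

/-- graph of `hh m` over `[a, b]` -/
def Gr (m : ℕ) (a b : ℝ) : Set (ℝ × ℝ) := (fun x => (x, hh m x)) '' Icc a b

theorem Gr_compact (m : ℕ) (a b : ℝ) : IsCompact (Gr m a b) :=
  isCompact_Icc.image (continuous_id.prodMk (hh_cont m))

theorem Gr_preconn (m : ℕ) (a b : ℝ) : IsPreconnected (Gr m a b) :=
  isPreconnected_Icc.image _ (continuous_id.prodMk (hh_cont m)).continuousOn

/-- block: part of the arch continuum over `[a, b]` at levels at least `m` -/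
def Bl (m : ℕ) (a b : ℝ) : Set (ℝ × ℝ) :=
  {p | p.1 ∈ Icc a b ∧ (p.2 = 0 ∨ ∃ k, m ≤ k ∧ p.2 = hh k p.1)}

theorem Bl_closed (m : ℕ) (a b : ℝ) : IsClosed (Bl m a b) := by
  have : Bl m a b = ⋂ N : ℕ, ((⋃ k ∈ {k | m ≤ k ∧ k < N}, Gr k a b) ∪
      (Icc a b ×ˢ Icc (0:ℝ) (1 / 4 ^ N))) := by
    ext p
    rw [mem_iInter]
    constructor
    · rintro ⟨h1, h2⟩ N
      rcases h2 with h2 | ⟨k, hk, h2⟩
      · right
        refine ⟨h1, ?_⟩
        rw [h2]
        exact ⟨le_rfl, by positivity⟩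
      · by_cases hkN : k < N
        · left
          exact mem_biUnion (show k ∈ {k | m ≤ k ∧ k < N} from ⟨hk, hkN⟩)
            ⟨p.1, h1, Prod.ext rfl h2.symm⟩
        · right
          refine ⟨h1, ?_⟩
          rw [h2]
          refine ⟨hh_nonneg _ _, (hh_le k p.1).trans ?_⟩
          push Not at hkN
          apply one_div_le_one_div_of_le (by positivity)
          exact pow_le_pow_right₀ (by norm_num) hkN
    · intro h
      by_cases hex : ∃ k, m ≤ k ∧ p ∈ Gr k a b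
      · obtain ⟨k, hk, x, hx, rfl⟩ := hex
        exact ⟨hx, Or.inr ⟨k, hk, rfl⟩⟩
      · push Not at hex
        have h2 : ∀ N : ℕ, p ∈ Icc a b ×ˢ Icc (0:ℝ) (1 / 4 ^ N) := by
          intro N
          rcases h N with h3 | h3
          · exfalso
            simp only [mem_iUnion, exists_prop] at h3
            obtain ⟨k, hk, hpk⟩ := h3
            exact hex k hk.1 hpk
          · exact h3
        refine ⟨(h2 0).1, Or.inl ?_⟩
        apply le_antisymm _ (h2 0).2.1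
        have h4 : Filter.Tendsto (fun N : ℕ => ((1:ℝ) / 4) ^ N) Filter.atTop (𝓝 0) :=
          tendsto_pow_atTop_nhds_zero_of_lt_one (by norm_num) (by norm_num)
        apply ge_of_tendsto' h4
        intro N
        have := (h2 N).2.2
        rwa [one_div_pow]
  rw [this]
  apply isClosed_iInter
  intro N
  apply IsClosed.union
  · apply Set.Finite.isClosed_biUnion
    · exact (Set.finite_lt_nat N).subset fun k hk => hk.2
    · intro k _
      exact (Gr_compact k a b).isClosed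
  · exact isClosed_Icc.prod isClosed_Icc

theorem Bl_compact (m : ℕ) (a b : ℝ) : IsCompact (Bl m a b) := by
  apply (isCompact_Icc (a := a) (b := b)).prod (isCompact_Icc (a := (0:ℝ)) (b := 1))
    |>.of_isClosed_subset (Bl_closed m a b)
  rintro p ⟨h1, h2⟩
  refine ⟨h1, ?_⟩
  rcases h2 with h2 | ⟨k, _, h2⟩
  · rw [h2]; simp
  · rw [h2]
    refine ⟨hh_nonneg _ _, (hh_le k p.1).trans ?_⟩
    rw [div_le_one (by positivity)]
    exact one_le_pow₀ (by norm_num)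

theorem LL_eq : LL = Bl 0 0 1 := by
  ext p
  constructor
  · rintro ⟨h1, h2 | ⟨m, h2⟩⟩
    · exact ⟨h1, Or.inl h2⟩
    · exact ⟨h1, Or.inr ⟨m, Nat.zero_le _, h2⟩⟩
  · rintro ⟨h1, h2 | ⟨m, _, h2⟩⟩
    · exact ⟨h1, Or.inl h2⟩
    · exact ⟨h1, Or.inr ⟨m, h2⟩⟩

theorem XX_compact : IsCompact XX := by
  unfold XX
  rw [LL_eq]
  exact SS_compact.union (Bl_compact _ _ _)

theorem Bl_preconn (m : ℕ) (j : ℤ) (b : ℝ) (hb : (j:ℝ) / 2 ^ m ≤ b) :
    IsPreconnected (Bl m ((j:ℝ) / 2 ^ m) b) := by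
  have hz : ∀ k, m ≤ k → hh k ((j:ℝ) / 2 ^ m) = 0 := by
    intro k hk
    apply le_antisymm _ (hh_nonneg _ _)
    have := (hh_eq_zero_iff m ((j:ℝ) / 2 ^ m)).2 ⟨j, rfl⟩
    rw [← this]
    exact hh_anti hk _
  have heq : Bl m ((j:ℝ) / 2 ^ m) b = ⋃₀ ({(fun x => (x, (0:ℝ))) '' Icc ((j:ℝ) / 2 ^ m) b} ∪
      {S | ∃ k, m ≤ k ∧ S = Gr k ((j:ℝ) / 2 ^ m) b}) := by
    ext p
    constructor
    · rintro ⟨h1, h2 | ⟨k, hk, h2⟩⟩
      · exact ⟨_, Or.inl rfl, p.1, h1, Prod.ext rfl h2.symm⟩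
      · exact ⟨_, Or.inr ⟨k, hk, rfl⟩, p.1, h1, Prod.ext rfl h2.symm⟩
    · rintro ⟨S, hS | ⟨k, hk, hS⟩, hp⟩
      · have hS' : S = (fun x => (x, (0:ℝ))) '' Icc ((j:ℝ) / 2 ^ m) b := hS
        rw [hS'] at hp
        obtain ⟨x, hx, rfl⟩ := hp
        exact ⟨hx, Or.inl rfl⟩
      · rw [hS] at hp
        obtain ⟨x, hx, rfl⟩ := hp
        exact ⟨hx, Or.inr ⟨k, hk, rfl⟩⟩
  rw [heq]
  apply isPreconnected_sUnion ((j:ℝ) / 2 ^ m, 0)
  · rintro S (hS | ⟨k, hk, hS⟩)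
    · have hS' : S = (fun x => (x, (0:ℝ))) '' Icc ((j:ℝ) / 2 ^ m) b := hS
      rw [hS']
      exact ⟨_, ⟨le_rfl, hb⟩, rfl⟩
    · rw [hS]
      exact ⟨_, ⟨le_rfl, hb⟩, by show (_, _) = _; rw [hz k hk]⟩
  · rintro S (hS | ⟨k, hk, hS⟩)
    · have hS' : S = (fun x => (x, (0:ℝ))) '' Icc ((j:ℝ) / 2 ^ m) b := hS
      rw [hS']
      exact isPreconnected_Icc.image _ (continuous_id.prodMk continuous_const).continuousOn
    · rw [hS]; exact Gr_preconn _ _ _

theorem LL_preconn : IsPreconnected LL := by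
  rw [LL_eq]
  have := Bl_preconn 0 0 1 (by norm_num)
  simpa using this

theorem XX_conn : IsConnected XX := by
  have h0S : ((0:ℝ), (0:ℝ)) ∈ SS := ⟨by simp, by simp⟩
  have h0L : ((0:ℝ), (0:ℝ)) ∈ LL := ⟨by simp, Or.inl rfl⟩
  refine ⟨⟨_, Or.inl h0S⟩, ?_⟩
  unfold XX
  exact ((convex_Icc (-1:ℝ) 0).prod (convex_Icc (0:ℝ) 1)).isPreconnected.union (0, 0)
    h0S h0L LL_preconn

/-! ### Property S -/

/-- `A` is a finite union of compact preconnected sets of diameter at most `ε`. -/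
def PS (ε : ℝ) (A : Set (ℝ × ℝ)) : Prop :=
  ∃ C : Set (Set (ℝ × ℝ)), C.Finite ∧ (∀ B ∈ C, IsPreconnected B ∧ IsClosed B ∧
    ∀ p ∈ B, ∀ q ∈ B, dist p q ≤ ε) ∧ ⋃₀ C = A

theorem PS.union {ε : ℝ} {A B : Set (ℝ × ℝ)} (hA : PS ε A) (hB : PS ε B) : PS ε (A ∪ B) := by
  obtain ⟨C, hC, h1, rfl⟩ := hA
  obtain ⟨C', hC', h1', rfl⟩ := hB
  refine ⟨C ∪ C', hC.union hC', ?_, sUnion_union _ _⟩
  rintro B (hB | hB)
  · exact h1 B hB
  · exact h1' B hB

theorem PS.empty {ε : ℝ} : PS ε ∅ := ⟨∅, Set.finite_empty, by simp, by simp⟩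

theorem PS.range {ε : ℝ} {A : ℕ → Set (ℝ × ℝ)} (N : ℕ) (hA : ∀ i < N, PS ε (A i)) :
    PS ε (⋃ i ∈ {i | i < N}, A i) := by
  induction N with
  | zero => 
    have : (⋃ i ∈ {i | i < 0}, A i) = ∅ := by simp
    rw [this]; exact PS.empty
  | succ N ih =>
    have : (⋃ i ∈ {i | i < N + 1}, A i) = (⋃ i ∈ {i | i < N}, A i) ∪ A N := by
      ext p
      simp only [mem_iUnion, mem_union, exists_prop]
      constructor
      · rintro ⟨i, hi, hp⟩
        have hi' : i < N + 1 := hi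
        rcases Nat.lt_succ_iff_lt_or_eq.1 hi' with h | h
        · exact Or.inl ⟨i, h, hp⟩
        · right; rw [← h]; exact hp
      · rintro (⟨i, hi, hp⟩ | hp)
        · have hi' : i < N := hi
          exact ⟨i, by show i < N + 1; omega, hp⟩
        · exact ⟨N, by show N < N + 1; omega, hp⟩
    rw [this]
    exact (ih fun i hi => hA i (by omega)).union (hA N (by omega))

theorem PS.single {ε : ℝ} {A : Set (ℝ × ℝ)} (h1 : IsPreconnected A) (h2 : IsClosed A)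
    (h3 : ∀ p ∈ A, ∀ q ∈ A, dist p q ≤ ε) : PS ε A :=
  ⟨{A}, Set.finite_singleton A, by rintro B rfl; exact ⟨h1, h2, h3⟩, by simp⟩

theorem Icc_split (M : ℕ) (hM : 0 < M) (x : ℝ) (hx : x ∈ Icc (0:ℝ) 1) :
    ∃ i < M, x ∈ Icc ((i:ℝ) / M) ((i + 1 : ℝ) / M) := by
  have hM' : (0:ℝ) < M := by exact_mod_cast hM
  by_cases h : x = 1
  · refine ⟨M - 1, by omega, ?_⟩
    rw [h]
    have : ((M - 1 : ℕ) : ℝ) = M - 1 := by
      rw [Nat.cast_sub hM]; simp
    rw [this]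
    constructor
    · rw [div_le_one hM']; linarith
    · rw [le_div_iff₀ hM']; linarith
  · have hx1 : x < 1 := lt_of_le_of_ne hx.2 h
    refine ⟨⌊x * M⌋₊, ?_, ?_, ?_⟩
    · rw [Nat.floor_lt (by have := hx.1; positivity)]
      nlinarith
    · rw [div_le_iff₀ hM']
      exact Nat.floor_le (by have := hx.1; positivity)
    · rw [le_div_iff₀ hM']
      exact (Nat.lt_floor_add_one _).le

theorem PS.gr {ε : ℝ} (hε : 0 < ε) (m : ℕ) : PS ε (Gr m 0 1) := by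
  have hf : Continuous (fun x : ℝ => (x, hh m x)) := continuous_id.prodMk (hh_cont m)
  have huc := (isCompact_Icc (a := (0:ℝ)) (b := 1)).uniformContinuousOn_of_continuous
    hf.continuousOn
  rw [Metric.uniformContinuousOn_iff_le] at huc
  obtain ⟨δ, hδ, hu⟩ := huc ε hε
  obtain ⟨M, hM⟩ := exists_nat_gt (1 / δ)
  have hM0 : (0:ℝ) < M := lt_trans (by positivity) hM
  have hM1 : 0 < M := by exact_mod_cast hM0
  have hMδ : 1 / (M:ℝ) ≤ δ := by
    rw [div_le_iff₀ hM0]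
    rw [div_lt_iff₀ hδ] at hM
    linarith
  have heq : Gr m 0 1 = ⋃ i ∈ {i | i < M}, Gr m ((i:ℝ) / M) ((i + 1 : ℝ) / M) := by
    ext p
    simp only [mem_iUnion, exists_prop]
    constructor
    · rintro ⟨x, hx, rfl⟩
      obtain ⟨i, hi, hxi⟩ := Icc_split M hM1 x hx
      exact ⟨i, hi, x, hxi, rfl⟩
    · rintro ⟨i, hi, x, hxi, rfl⟩
      have hi' : i < M := hi
      refine ⟨x, ⟨le_trans (by positivity) hxi.1, hxi.2.trans ?_⟩, rfl⟩
      rw [div_le_one hM0]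
      exact_mod_cast hi'
  rw [heq]
  apply PS.range
  intro i hi
  apply PS.single (Gr_preconn _ _ _) (Gr_compact _ _ _).isClosed
  rintro _ ⟨x, hx, rfl⟩ _ ⟨y, hy, rfl⟩
  have h1 : (i + 1 : ℝ) / M ≤ 1 := by
    rw [div_le_one hM0]
    exact_mod_cast hi
  have h0 : (0:ℝ) ≤ (i : ℝ) / M := by positivity
  apply hu x ⟨h0.trans hx.1, hx.2.trans h1⟩ y ⟨h0.trans hy.1, hy.2.trans h1⟩
  rw [Real.dist_eq, abs_le]
  have h2 : (i + 1 : ℝ) / M = i / M + 1 / M := by ring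
  constructor <;> linarith [hx.1, hx.2, hy.1, hy.2]

theorem PS.ss {ε : ℝ} (hε : 0 < ε) : PS ε SS := by
  obtain ⟨M, hM⟩ := exists_nat_gt (1 / ε)
  have hM0 : (0:ℝ) < M := lt_trans (by positivity) hM
  have hM1 : 0 < M := by exact_mod_cast hM0
  have hMδ : 1 / (M:ℝ) ≤ ε := by
    rw [div_le_iff₀ hM0]
    rw [div_lt_iff₀ hε] at hM
    linarith
  have heq : SS = ⋃ i ∈ {i | i < M}, ⋃ j ∈ {j | j < M},
      (Icc ((i:ℝ) / M - 1) ((i + 1 : ℝ) / M - 1) ×ˢ Icc ((j:ℝ) / M) ((j + 1 : ℝ) / M)) := by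
    ext p
    simp only [mem_iUnion, exists_prop]
    constructor
    · rintro ⟨h1, h2⟩
      obtain ⟨i, hi, hxi⟩ := Icc_split M hM1 (p.1 + 1) ⟨by linarith [h1.1], by linarith [h1.2]⟩
      obtain ⟨j, hj, hxj⟩ := Icc_split M hM1 p.2 h2
      exact ⟨i, hi, j, hj, ⟨by linarith [hxi.1], by linarith [hxi.2]⟩, hxj⟩
    · rintro ⟨i, hi, j, hj, h1, h2⟩
      have hi' : i < M := hi
      have hj' : j < M := hj
      have a1 : (i + 1 : ℝ) / M ≤ 1 := by
        rw [div_le_one hM0]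
        exact_mod_cast hi'
      have a2 : (j + 1 : ℝ) / M ≤ 1 := by
        rw [div_le_one hM0]
        exact_mod_cast hj'
      have a3 : (0:ℝ) ≤ (i : ℝ) / M := by positivity
      have a4 : (0:ℝ) ≤ (j : ℝ) / M := by positivity
      exact ⟨⟨by linarith [h1.1], by linarith [h1.2]⟩, ⟨by linarith [h2.1], by linarith [h2.2]⟩⟩
  rw [heq]
  apply PS.range
  intro i hi
  apply PS.range
  intro j hj
  apply PS.single
  · exact ((convex_Icc _ _).prod (convex_Icc _ _)).isPreconnected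
  · exact isClosed_Icc.prod isClosed_Icc
  · rintro p ⟨h1, h2⟩ q ⟨h1', h2'⟩
    have a1 : (i + 1 : ℝ) / M = i / M + 1 / M := by ring
    have a2 : (j + 1 : ℝ) / M = j / M + 1 / M := by ring
    rw [Prod.dist_eq]
    apply max_le
    · rw [Real.dist_eq, abs_le]
      constructor <;> linarith [h1.1, h1.2, h1'.1, h1'.2]
    · rw [Real.dist_eq, abs_le]
      constructor <;> linarith [h2.1, h2.2, h2'.1, h2'.2]

theorem PS.xx {ε : ℝ} (hε : 0 < ε) : PS ε XX := by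
  obtain ⟨N, hN⟩ := exists_pow_lt_of_lt_one hε (by norm_num : (1:ℝ) / 2 < 1)
  have h2N : (0:ℝ) < 2 ^ N := by positivity
  have heq : XX = SS ∪ ((⋃ m ∈ {m | m < N}, Gr m 0 1) ∪
      (⋃ i ∈ {i : ℕ | i < 2 ^ N}, Bl N (((i : ℤ) : ℝ) / 2 ^ N) ((i + 1 : ℝ) / 2 ^ N))) := by
    unfold XX
    congr 1
    ext p
    simp only [mem_union, mem_iUnion, exists_prop]
    constructor
    · rintro ⟨h1, h2⟩
      have hsplit : ∃ i : ℕ, i < 2 ^ N ∧ p.1 ∈ Icc (((i : ℤ) : ℝ) / 2 ^ N) ((i + 1 : ℝ) / 2 ^ N) := by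
        have := Icc_split (2 ^ N) (by positivity) p.1 h1
        push_cast at this ⊢
        exact this
      obtain ⟨i, hi, hpi⟩ := hsplit
      rcases h2 with h2 | ⟨m, h2⟩
      · exact Or.inr ⟨i, hi, hpi, Or.inl h2⟩
      · by_cases hm : m < N
        · exact Or.inl ⟨m, hm, p.1, h1, Prod.ext rfl h2.symm⟩
        · exact Or.inr ⟨i, hi, hpi, Or.inr ⟨m, by omega, h2⟩⟩
    · rintro (⟨m, hm, x, hx, rfl⟩ | ⟨i, hi, h1, h2⟩)
      · exact ⟨hx, Or.inr ⟨m, rfl⟩⟩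
      · have hi' : i < 2 ^ N := hi
        have a1 : (i + 1 : ℝ) / 2 ^ N ≤ 1 := by
          rw [div_le_one h2N]
          exact_mod_cast hi'
        have a3 : (0:ℝ) ≤ ((i : ℤ) : ℝ) / 2 ^ N := by positivity
        refine ⟨⟨a3.trans h1.1, h1.2.trans a1⟩, ?_⟩
        rcases h2 with h2 | ⟨k, _, h2⟩
        · exact Or.inl h2
        · exact Or.inr ⟨k, h2⟩
  rw [heq]
  apply (PS.ss hε).union
  apply PS.union
  · apply PS.range
    intro m _
    exact PS.gr hε m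
  · apply PS.range
    intro i hi
    have a2 : (i + 1 : ℝ) / 2 ^ N = ((i : ℤ) : ℝ) / 2 ^ N + 1 / 2 ^ N := by
      push_cast; ring
    apply PS.single
    · apply Bl_preconn
      rw [a2]
      have : (0:ℝ) < 1 / 2 ^ N := by positivity
      linarith
    · exact Bl_closed _ _ _
    · rintro p ⟨h1, h2⟩ q ⟨h1', h2'⟩
      rw [one_div_pow] at hN
      have hb : ∀ p : ℝ × ℝ, (p.2 = 0 ∨ ∃ k, N ≤ k ∧ p.2 = hh k p.1) →
          0 ≤ p.2 ∧ p.2 ≤ 1 / 2 ^ N := by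
        rintro p (h | ⟨k, hk, h⟩)
        · rw [h]; exact ⟨le_rfl, by positivity⟩
        · rw [h]
          refine ⟨hh_nonneg _ _, ((hh_anti hk _).trans (hh_le N _)).trans ?_⟩
          apply one_div_le_one_div_of_le (by positivity)
          exact pow_le_pow_left₀ (by norm_num) (by norm_num) N
      have b1 := hb p h2
      have b2 := hb q h2'
      rw [Prod.dist_eq]
      apply max_le
      · rw [Real.dist_eq, abs_le]
        constructor <;> linarith [h1.1, h1.2, h1'.1, h1'.2]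
      · rw [Real.dist_eq, abs_le]
        constructor <;> linarith

theorem locConn_of_PS {X : Set (ℝ × ℝ)} (h : ∀ ε > 0, PS ε X) : LocallyConnectedSpace X := by
  rw [locallyConnectedSpace_iff_connected_subsets]
  intro x U hU
  obtain ⟨ε, hε, hball⟩ := Metric.mem_nhds_iff.1 hU
  obtain ⟨C, hC, hC1, hC2⟩ := h (ε / 2) (by positivity)
  refine ⟨Subtype.val ⁻¹' (⋃₀ {B ∈ C | x.1 ∈ B}), ?_, ?_, ?_⟩
  · -- neighbourhood
    have hcl : IsClosed (⋃₀ {B ∈ C | x.1 ∉ B}) := by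
      rw [sUnion_eq_biUnion]
      apply (hC.subset (sep_subset _ _)).isClosed_biUnion
      intro B hB
      exact (hC1 B hB.1).2.1
    have hx : x.1 ∈ (⋃₀ {B ∈ C | x.1 ∉ B})ᶜ := by
      rintro ⟨B, hB, hxB⟩
      exact hB.2 hxB
    have h1 : Subtype.val ⁻¹' (⋃₀ {B ∈ C | x.1 ∉ B})ᶜ ∈ 𝓝 x :=
      (hcl.isOpen_compl.preimage continuous_subtype_val).mem_nhds hx
    apply Filter.mem_of_superset h1
    intro y hy
    have hyX : y.1 ∈ ⋃₀ C := by rw [hC2]; exact y.2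
    obtain ⟨B, hB, hyB⟩ := hyX
    refine ⟨B, ⟨hB, ?_⟩, hyB⟩
    by_contra hcon
    exact hy ⟨B, ⟨hB, hcon⟩, hyB⟩
  · rw [← Topology.IsInducing.subtypeVal.isPreconnected_image]
    have : Subtype.val '' (Subtype.val ⁻¹' (⋃₀ {B ∈ C | x.1 ∈ B}) : Set X) =
        ⋃₀ {B ∈ C | x.1 ∈ B} := by
      rw [Subtype.image_preimage_coe]
      apply inter_eq_right.2
      rintro y ⟨B, hB, hyB⟩
      rw [← hC2]
      exact ⟨B, hB.1, hyB⟩
    rw [this]
    apply isPreconnected_sUnion x.1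
    · intro B hB; exact hB.2
    · intro B hB; exact (hC1 B hB.1).1
  · rintro y ⟨B, hB, hyB⟩
    apply hball
    rw [Metric.mem_ball, Subtype.dist_eq]
    have := (hC1 B hB.1).2.2 y.1 hyB x.1 hB.2
    linarith

end Pool.Agent.H333
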