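import Mathlib

set_option autoImplicit false

namespace Pool.Agent.H333

open Set Topology Geometry

variable {E : Type} [NormedAddCommGroup E] [InnerProductSpace ℝ E]

/-- Union of the faces with at least three vertices. -/
def Thick (K : SimplicialComplex ℝ E) : Set E :=
  {x | ∃ τ ∈ K.faces, 3 ≤ τ.card ∧ x ∈ convexHull ℝ (τ : Set E)}

theorem space_compact (K : SimplicialComplex ℝ E) (hfin : K.faces.Finite) : IsCompact K.space := by
  unfold SimplicialComplex.space
  exact hfin.isCompact_biUnion fun s _ => s.finite_toSet.isCompact_convexHull ℝ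

theorem exists_min (K : SimplicialComplex ℝ E) (x : E) (hx : x ∈ K.space) :
    ∃ σ ∈ K.faces, x ∈ convexHull ℝ (σ : Set E) ∧
      ∀ τ ∈ K.faces, x ∈ convexHull ℝ (τ : Set E) → σ ⊆ τ := by
  classical
  obtain ⟨s, hs, hxs⟩ := SimplicialComplex.mem_space_iff.1 hx
  have hne : ∃ n : ℕ, ∃ σ ∈ K.faces, x ∈ convexHull ℝ (σ : Set E) ∧ σ.card = n :=
    ⟨_, s, hs, hxs, rfl⟩
  obtain ⟨σ, hσ, hxσ, hcard⟩ := Nat.find_spec hne
  refine ⟨σ, hσ, hxσ, fun τ hτ hxτ => ?_⟩
  have h1 : x ∈ convexHull ℝ ((σ ∩ τ : Finset E) : Set E) := by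
    rw [Finset.coe_inter]
    exact K.inter_subset_convexHull hσ hτ ⟨hxσ, hxτ⟩
  have hne' : (σ ∩ τ).Nonempty := by
    have := convexHull_nonempty_iff.1 ⟨x, h1⟩
    exact_mod_cast this
  have h2 : σ ∩ τ ∈ K.faces := K.down_closed hσ Finset.inter_subset_left hne'
  have h3 := Nat.find_min' hne ⟨_, h2, h1, rfl⟩
  have h4 : σ ∩ τ = σ := Finset.eq_of_subset_of_card_le Finset.inter_subset_left (by omega)
  rw [← h4]; exact Finset.inter_subset_right

theorem exists_local (K : SimplicialComplex ℝ E) (hfin : K.faces.Finite) (x : E)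
    (hx : x ∈ K.space) :
    ∃ σ ∈ K.faces, x ∈ convexHull ℝ (σ : Set E) ∧
      (∀ τ ∈ K.faces, x ∈ convexHull ℝ (τ : Set E) → σ ⊆ τ) ∧
      ∃ r > 0, ∀ y ∈ K.space, dist y x < r →
        ∃ τ ∈ K.faces, σ ⊆ τ ∧ y ∈ convexHull ℝ (τ : Set E) := by
  obtain ⟨σ, hσ, hxσ, hmin⟩ := exists_min K x hx
  refine ⟨σ, hσ, hxσ, hmin, ?_⟩
  have hcl : IsClosed (⋃ τ ∈ {τ ∈ K.faces | x ∉ convexHull ℝ (τ : Set E)},
      convexHull ℝ (τ : Set E)) := by
    apply Set.Finite.isClosed_biUnion (hfin.subset (fun τ h => h.1))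
    intro τ _
    exact (τ.finite_toSet.isCompact_convexHull ℝ).isClosed
  have hxn : x ∈ (⋃ τ ∈ {τ ∈ K.faces | x ∉ convexHull ℝ (τ : Set E)},
      convexHull ℝ (τ : Set E))ᶜ := by
    simp only [mem_compl_iff, mem_iUnion, not_exists]
    intro τ hτ
    exact hτ.2
  obtain ⟨r, hr, hball⟩ := Metric.isOpen_iff.1 hcl.isOpen_compl x hxn
  refine ⟨r, hr, fun y hy hyx => ?_⟩
  obtain ⟨τ, hτ, hyτ⟩ := SimplicialComplex.mem_space_iff.1 hy
  have h1 := hball (Metric.mem_ball.2 hyx)
  simp only [mem_compl_iff, mem_iUnion, not_exists] at h1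
  have h2 : x ∈ convexHull ℝ (τ : Set E) := by
    by_contra h
    exact h1 τ ⟨hτ, h⟩ hyτ
  exact ⟨τ, hτ, hmin τ hτ h2, hyτ⟩

/-- Three affinely independent points are not all on a line. -/
theorem exists_off_line (τ : Finset E) (hind : AffineIndependent ℝ ((↑) : τ → E))
    (hcard : 3 ≤ τ.card) (x v : E) : ∃ w ∈ τ, ∀ r : ℝ, w ≠ x + r • v := by
  classical
  by_contra hcon
  push Not at hcon
  obtain ⟨a, ha, b, hb, c, hc, hab, hac, hbc⟩ := Finset.two_lt_card.1 (by omega : 2 < τ.card)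
  have h1 : AffineIndependent ℝ ![a, b, c] := by
    let g : Fin 3 ↪ τ := ⟨![⟨a, ha⟩, ⟨b, hb⟩, ⟨c, hc⟩], by
      intro i j hij
      fin_cases i <;> fin_cases j <;> simp_all⟩
    have := hind.comp_embedding g
    convert this using 1
    funext i
    fin_cases i <;> rfl
  rw [affineIndependent_iff_not_collinear_set] at h1
  apply h1
  rw [collinear_iff_exists_forall_eq_smul_vadd]
  refine ⟨x, v, ?_⟩
  intro p hp
  have : p ∈ τ := by
    simp only [mem_insert_iff, mem_singleton_iff] at hp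
    rcases hp with rfl | rfl | rfl <;> assumption
  obtain ⟨r, hr⟩ := hcon p this
  exact ⟨r, by rw [hr, vadd_eq_add, add_comm]⟩

theorem punctured_preconn (τ : Finset E) (hind : AffineIndependent ℝ ((↑) : τ → E))
    (hcard : 3 ≤ τ.card) (x : E) (hx : x ∈ convexHull ℝ (τ : Set E)) (ε : ℝ) (hε : 0 < ε) :
    IsPreconnected ((Metric.ball x ε ∩ convexHull ℝ (τ : Set E)) \ {x}) := by
  have hconv : Convex ℝ (Metric.ball x ε ∩ convexHull ℝ (τ : Set E)) :=
    (convex_ball x ε).inter (convex_convexHull ℝ _)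
  apply isPreconnected_of_forall_pair
  rintro y ⟨hy, hyx⟩ y' ⟨hy', hyx'⟩
  have hyx1 : y ≠ x := hyx
  have hyx1' : y' ≠ x := hyx'
  by_cases h : x ∈ segment ℝ y y'
  · obtain ⟨w, hw, hwl⟩ := exists_off_line τ hind hcard x (y - x)
    -- z = x + δ (w - x)
    have hwx : w ≠ x := by
      intro h
      exact hwl 0 (by rw [h]; simp)
    have hn : 0 < ‖w - x‖ := norm_pos_iff.2 (sub_ne_zero.2 hwx)
    obtain ⟨δ, hδ0, hδ1, hδ2⟩ : ∃ δ : ℝ, 0 < δ ∧ δ ≤ 1 ∧ δ * ‖w - x‖ < ε := by
      refine ⟨min 1 (ε / (2 * ‖w - x‖)), lt_min one_pos (by positivity), min_le_left _ _, ?_⟩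
      calc min 1 (ε / (2 * ‖w - x‖)) * ‖w - x‖ ≤ (ε / (2 * ‖w - x‖)) * ‖w - x‖ := by
            gcongr; exact min_le_right _ _
        _ = ε / 2 := by field_simp
        _ < ε := by linarith
    set z : E := x + δ • (w - x) with hz
    have hzC : z ∈ Metric.ball x ε ∩ convexHull ℝ (τ : Set E) := by
      constructor
      · rw [Metric.mem_ball, dist_eq_norm, hz, add_sub_cancel_left, norm_smul, Real.norm_eq_abs,
          abs_of_pos hδ0]
        exact hδ2
      · have := (convex_convexHull ℝ (τ : Set E)) hx (subset_convexHull ℝ _ hw)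
          (by linarith : (0:ℝ) ≤ 1 - δ) hδ0.le (by ring)
        convert this using 1
        rw [hz]; module
    obtain ⟨α, β, hα, hβ, hαβ, hxeq⟩ := h
    have hβ0 : β ≠ 0 := by
      intro hb
      apply hyx1
      have : α = 1 := by linarith
      rw [← hxeq, hb, this]; simp
    have hy'eq : y' - x = (-(α / β)) • (y - x) := by
      have h1 : β • (y' - x) = β • ((-(α / β)) • (y - x)) := by
        rw [smul_smul]
        have h2 : β * (-(α / β)) = -α := by field_simp
        rw [h2]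
        have h3 : β • y' = x - α • y := by rw [← hxeq]; abel
        rw [smul_sub, h3]
        have h4 : β = 1 - α := by linarith
        rw [h4]; module
      exact smul_right_injective E hβ0 h1
    have key1 : x ∉ segment ℝ y z := by
      rintro ⟨a, b, ha, hb, hab, habx⟩
      have hb0 : b ≠ 0 := by
        intro hb0
        apply hyx1
        have : a = 1 := by linarith
        rw [← habx, hb0, this]; simp
      apply hwl (-(a / (b * δ)))
      have h1 : (b * δ) • w = (b * δ) • (x + (-(a / (b * δ))) • (y - x)) := by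
        rw [smul_add, smul_smul]
        have h2 : (b * δ) * (-(a / (b * δ))) = -a := by field_simp
        rw [h2]
        have h3 : (b * δ) • w = x - a • y - b • x + (b * δ) • x := by
          rw [hz] at habx
          have : b • (x + δ • (w - x)) = b • x + (b * δ) • w - (b * δ) • x := by module
          rw [this] at habx
          linear_combination (norm := module) (1:ℝ) • habx
        rw [h3]
        have h4 : b = 1 - a := by linarith
        rw [h4]; module
      have hbd : b * δ ≠ 0 := mul_ne_zero hb0 hδ0.ne'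
      exact smul_right_injective E hbd h1
    have key2 : x ∉ segment ℝ z y' := by
      rintro ⟨b, a, hb, ha, hab, habx⟩
      have hb0 : b ≠ 0 := by
        intro hb0
        apply hyx1'
        have : a = 1 := by linarith
        rw [← habx, hb0, this]; simp
      have hbd : b * δ ≠ 0 := mul_ne_zero hb0 hδ0.ne'
      apply hwl ((a * (α / β)) / (b * δ))
      have h1 : (b * δ) • w = (b * δ) • (x + ((a * (α / β)) / (b * δ)) • (y - x)) := by
        rw [smul_add, smul_smul]
        have h2 : (b * δ) * ((a * (α / β)) / (b * δ)) = a * (α / β) := by field_simp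
        rw [h2]
        have h3 : (b * δ) • w = -(a • (y' - x)) + (b * δ) • x := by
          rw [hz] at habx
          have h5 : b • (x + δ • (w - x)) = b • x + (b * δ) • w - (b * δ) • x := by module
          rw [h5] at habx
          have h6 : (b * δ) • w = x - a • y' - b • x + (b * δ) • x := by
            linear_combination (norm := module) (1:ℝ) • habx
          rw [h6]
          have h4 : b = 1 - a := by linarith
          rw [h4]; module
        rw [h3, hy'eq]; module
      exact smul_right_injective E hbd h1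
    have hzx : z ≠ x := by
      intro h
      apply key1
      rw [h]; exact right_mem_segment ℝ y x
    refine ⟨segment ℝ y z ∪ segment ℝ z y', ?_, Or.inl (left_mem_segment ℝ y z),
      Or.inr (right_mem_segment ℝ z y'), ?_⟩
    · apply Set.union_subset
      · intro q hq
        refine ⟨hconv.segment_subset hy hzC hq, ?_⟩
        rintro rfl
        exact key1 hq
      · intro q hq
        refine ⟨hconv.segment_subset hzC hy' hq, ?_⟩
        rintro rfl
        exact key2 hq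
    · exact (convex_segment y z).isPreconnected.union z (right_mem_segment ℝ y z)
        (left_mem_segment ℝ z y') (convex_segment z y').isPreconnected
  · refine ⟨segment ℝ y y', ?_, left_mem_segment ℝ y y', right_mem_segment ℝ y y',
      (convex_segment y y').isPreconnected⟩
    intro z hz
    refine ⟨hconv.segment_subset hy hy' hz, ?_⟩
    rintro rfl
    exact h hz

theorem two_le_of_nonvertex (K : SimplicialComplex ℝ E) {x : E} (hv : x ∉ K.vertices)
    {σ : Finset E} (hσ : σ ∈ K.faces) (hxσ : x ∈ convexHull ℝ (σ : Set E)) : 2 ≤ σ.card := by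
  by_contra h
  have h1 : σ.Nonempty := K.nonempty_of_mem_faces hσ
  have h2 : σ.card = 1 := by
    have := h1.card_pos
    omega
  obtain ⟨v, rfl⟩ := Finset.card_eq_one.1 h2
  simp at hxσ
  subst hxσ
  exact hv hσ

theorem good_of_thick (K : SimplicialComplex ℝ E) (hfin : K.faces.Finite) (x : K.space)
    (hv : x.1 ∉ K.vertices) (hth : x.1 ∈ Thick K) :
    ∃ r > 0, ∀ ε > 0, ε ≤ r → IsPreconnected (Metric.ball x ε \ {x}) := by
  classical
  obtain ⟨σ, hσ, hxσ, hmin, r, hr, hloc⟩ := exists_local K hfin x.1 x.2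
  obtain ⟨τ0, hτ0, hcard0, hxτ0⟩ := hth
  refine ⟨r, hr, fun ε hε hεr => ?_⟩
  rw [← Topology.IsInducing.subtypeVal.isPreconnected_image]
  have hcardσ := two_le_of_nonvertex K hv hσ hxσ
  -- the common point z
  obtain ⟨v, hvσ⟩ := K.nonempty_of_mem_faces hσ
  have hvx : v ≠ x.1 := by
    rintro rfl
    exact hv (K.down_closed hσ (Finset.singleton_subset_iff.2 hvσ) (Finset.singleton_nonempty _))
  have hn : 0 < ‖v - x.1‖ := norm_pos_iff.2 (sub_ne_zero.2 hvx)
  obtain ⟨δ, hδ0, hδ1, hδ2⟩ : ∃ δ : ℝ, 0 < δ ∧ δ ≤ 1 ∧ δ * ‖v - x.1‖ < ε := by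
    refine ⟨min 1 (ε / (2 * ‖v - x.1‖)), lt_min one_pos (by positivity), min_le_left _ _, ?_⟩
    calc min 1 (ε / (2 * ‖v - x.1‖)) * ‖v - x.1‖ ≤ (ε / (2 * ‖v - x.1‖)) * ‖v - x.1‖ := by
          gcongr; exact min_le_right _ _
      _ = ε / 2 := by field_simp
      _ < ε := by linarith
  set z : E := x.1 + δ • (v - x.1) with hz
  have hzball : z ∈ Metric.ball x.1 ε := by
    rw [Metric.mem_ball, dist_eq_norm, hz, add_sub_cancel_left, norm_smul, Real.norm_eq_abs,
      abs_of_pos hδ0]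
    exact hδ2
  have hzx : z ≠ x.1 := by
    intro h
    have h1 : δ • (v - x.1) = 0 := by
      have : x.1 + δ • (v - x.1) = x.1 + 0 := by rw [add_zero]; exact h
      exact add_left_cancel this
    rcases smul_eq_zero.1 h1 with h2 | h2
    · exact hδ0.ne' h2
    · exact hvx (sub_eq_zero.1 h2)
  have hzτ : ∀ τ ∈ K.faces, σ ⊆ τ → z ∈ convexHull ℝ (τ : Set E) := by
    intro τ hτ hστ
    have h1 : x.1 ∈ convexHull ℝ (τ : Set E) :=
      convexHull_mono (by exact_mod_cast hστ) hxσ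
    have := (convex_convexHull ℝ (τ : Set E)) h1 (subset_convexHull ℝ _ (hστ hvσ))
      (by linarith : (0:ℝ) ≤ 1 - δ) hδ0.le (by ring)
    convert this using 1
    rw [hz]; module
  have heq : Subtype.val '' (Metric.ball x ε \ {x}) =
      ⋃₀ {S | ∃ τ ∈ K.faces, σ ⊆ τ ∧ 3 ≤ τ.card ∧
        S = (Metric.ball x.1 ε ∩ convexHull ℝ (τ : Set E)) \ {x.1}} := by
    ext y
    constructor
    · rintro ⟨y, ⟨hy, hyx⟩, rfl⟩
      have hyb : dist y.1 x.1 < ε := hy
      obtain ⟨τ, hτ, hστ, hyτ⟩ := hloc y.1 y.2 (by linarith)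
      have hyx' : y.1 ≠ x.1 := fun h => hyx (Subtype.ext h)
      by_cases h3 : 3 ≤ τ.card
      · exact ⟨_, ⟨τ, hτ, hστ, h3, rfl⟩, ⟨hyb, hyτ⟩, hyx'⟩
      · have h4 : σ = τ := Finset.eq_of_subset_of_card_le hστ (by omega)
        refine ⟨_, ⟨τ0, hτ0, hmin τ0 hτ0 hxτ0, hcard0, rfl⟩, ⟨hyb, ?_⟩, hyx'⟩
        rw [← h4] at hyτ
        exact convexHull_mono (by exact_mod_cast hmin τ0 hτ0 hxτ0) hyτ
    · rintro ⟨_, ⟨τ, hτ, hστ, h3, rfl⟩, ⟨hyb, hyτ⟩, hyx⟩
      refine ⟨⟨y, SimplicialComplex.convexHull_subset_space hτ hyτ⟩, ⟨hyb, ?_⟩, rfl⟩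
      intro h
      exact hyx (congrArg Subtype.val h)
  rw [heq]
  apply isPreconnected_sUnion z
  · rintro _ ⟨τ, hτ, hστ, h3, rfl⟩
    exact ⟨⟨hzball, hzτ τ hτ hστ⟩, hzx⟩
  · rintro _ ⟨τ, hτ, hστ, h3, rfl⟩
    exact punctured_preconn τ (K.indep hτ) h3 x.1
      (convexHull_mono (by exact_mod_cast hστ) hxσ) ε hε

theorem thick_nhds (K : SimplicialComplex ℝ E) (hfin : K.faces.Finite) (x : K.space)
    (hv : x.1 ∉ K.vertices) (hth : x.1 ∈ Thick K) :
    ∃ r > 0, ∀ y : K.space, dist y x < r → y.1 ∈ Thick K := by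
  obtain ⟨σ, hσ, hxσ, hmin, r, hr, hloc⟩ := exists_local K hfin x.1 x.2
  obtain ⟨τ0, hτ0, hcard0, hxτ0⟩ := hth
  refine ⟨r, hr, fun y hy => ?_⟩
  obtain ⟨τ, hτ, hστ, hyτ⟩ := hloc y.1 y.2 hy
  have hcardσ := two_le_of_nonvertex K hv hσ hxσ
  by_cases h3 : 3 ≤ τ.card
  · exact ⟨τ, hτ, h3, hyτ⟩
  · have h4 : σ = τ := Finset.eq_of_subset_of_card_le hστ (by omega)
    refine ⟨τ0, hτ0, hcard0, ?_⟩
    rw [← h4] at hyτ
    exact convexHull_mono (by exact_mod_cast hmin τ0 hτ0 hxτ0) hyτ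

theorem sep_of_thin (K : SimplicialComplex ℝ E) (hfin : K.faces.Finite) (x : K.space)
    (hv : x.1 ∉ K.vertices) (hth : x.1 ∉ Thick K) :
    ∃ φ : K.space → ℝ, Continuous φ ∧ φ x = 0 ∧
      (∃ r > 0, ∀ y : K.space, dist y x < r → φ y = 0 → y = x) ∧
      (∀ ε > 0, ∃ y : K.space, dist y x < ε ∧ φ y < 0) ∧
      (∀ ε > 0, ∃ y : K.space, dist y x < ε ∧ 0 < φ y) := by
  classical
  obtain ⟨σ, hσ, hxσ, hmin, r, hr, hloc⟩ := exists_local K hfin x.1 x.2
  have hcardσ := two_le_of_nonvertex K hv hσ hxσ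
  have hcard2 : σ.card = 2 := by
    by_contra h
    exact hth ⟨σ, hσ, by omega, hxσ⟩
  obtain ⟨u, v, huv, rfl⟩ := Finset.card_eq_two.1 hcard2
  have hseg : ∀ y : E, y ∈ convexHull ℝ (({u, v} : Finset E) : Set E) ↔
      ∃ s : ℝ, 0 ≤ s ∧ s ≤ 1 ∧ y = u + s • (v - u) := by
    intro y
    rw [Finset.coe_pair, convexHull_pair]
    constructor
    · rintro ⟨a, b, ha, hb, hab, rfl⟩
      refine ⟨b, hb, by linarith, ?_⟩
      have : a = 1 - b := by linarith
      rw [this]; module
    · rintro ⟨s, hs0, hs1, rfl⟩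
      refine ⟨1 - s, s, by linarith, hs0, by ring, ?_⟩
      module
  obtain ⟨s0, hs0, hs1, hxs⟩ := (hseg x.1).1 hxσ
  have hs0' : 0 < s0 := by
    rcases hs0.lt_or_eq with h | h
    · exact h
    · exfalso
      apply hv
      rw [hxs, ← h]
      simp only [zero_smul, add_zero]
      exact K.down_closed hσ (by simp) (Finset.singleton_nonempty _)
  have hs1' : s0 < 1 := by
    rcases hs1.lt_or_eq with h | h
    · exact h
    · exfalso
      apply hv
      rw [hxs, h]
      simp only [one_smul, add_sub_cancel]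
      exact K.down_closed hσ (by simp) (Finset.singleton_nonempty _)
  have hn : 0 < ‖v - u‖ := norm_pos_iff.2 (sub_ne_zero.2 huv.symm)
  have hφ : ∀ s : ℝ, inner ℝ (v - u) ((u + s • (v - u)) - x.1) = (s - s0) * ‖v - u‖ ^ 2 := by
    intro s
    have : (u + s • (v - u)) - x.1 = (s - s0) • (v - u) := by
      rw [hxs]; module
    rw [this, inner_smul_right, real_inner_self_eq_norm_sq]
  have hpt : ∀ ε > 0, ∃ δ > 0, ∀ s : ℝ, |s - s0| ≤ δ → 0 ≤ s ∧ s ≤ 1 ∧
      dist (u + s • (v - u)) x.1 < ε := by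
    intro ε hε
    refine ⟨min (min s0 (1 - s0)) (ε / (2 * ‖v - u‖)), ?_, ?_⟩
    · exact lt_min (lt_min hs0' (by linarith)) (by positivity)
    · intro s hs
      have h1 : |s - s0| ≤ s0 := hs.trans ((min_le_left _ _).trans (min_le_left _ _))
      have h2 : |s - s0| ≤ 1 - s0 := hs.trans ((min_le_left _ _).trans (min_le_right _ _))
      have h3 : |s - s0| ≤ ε / (2 * ‖v - u‖) := hs.trans (min_le_right _ _)
      rw [abs_le] at h1 h2
      refine ⟨by linarith, by linarith, ?_⟩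
      have : (u + s • (v - u)) - x.1 = (s - s0) • (v - u) := by
        rw [hxs]; module
      rw [dist_eq_norm, this, norm_smul, Real.norm_eq_abs]
      calc |s - s0| * ‖v - u‖ ≤ ε / (2 * ‖v - u‖) * ‖v - u‖ := by gcongr
        _ = ε / 2 := by field_simp
        _ < ε := by linarith
  refine ⟨fun y => inner ℝ (v - u) (y.1 - x.1), ?_, ?_, ⟨r, hr, ?_⟩, ?_, ?_⟩
  · fun_prop
  · simp
  · intro y hy hy0
    obtain ⟨τ, hτ, hστ, hyτ⟩ := hloc y.1 y.2 hy
    have hτcard : τ.card ≤ 2 := by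
      by_contra h
      apply hth
      exact ⟨τ, hτ, by omega, convexHull_mono (by exact_mod_cast hστ) hxσ⟩
    have h4 : ({u, v} : Finset E) = τ := Finset.eq_of_subset_of_card_le hστ (by omega)
    rw [← h4] at hyτ
    obtain ⟨s, _, _, hys⟩ := (hseg y.1).1 hyτ
    have h5 := hφ s
    rw [← hys] at h5
    have h6 : inner ℝ (v - u) (y.1 - x.1) = 0 := hy0
    rw [h6] at h5
    have h7 : s - s0 = 0 := by
      rcases mul_eq_zero.1 h5.symm with h | h
      · exact h
      · exfalso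
        have := pow_pos hn 2
        linarith
    apply Subtype.ext
    rw [hys, hxs, show s = s0 by linarith]
  · intro ε hε
    obtain ⟨δ, hδ, hs⟩ := hpt ε hε
    obtain ⟨h1, h2, h3⟩ := hs (s0 - δ) (by
      rw [show s0 - δ - s0 = -δ by ring, abs_neg, abs_of_pos hδ])
    refine ⟨⟨u + (s0 - δ) • (v - u), SimplicialComplex.convexHull_subset_space hσ
      ((hseg _).2 ⟨_, h1, h2, rfl⟩)⟩, h3, ?_⟩
    show inner ℝ (v - u) ((u + (s0 - δ) • (v - u)) - x.1) < 0
    rw [hφ]
    have := pow_pos hn 2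
    nlinarith
  · intro ε hε
    obtain ⟨δ, hδ, hs⟩ := hpt ε hε
    obtain ⟨h1, h2, h3⟩ := hs (s0 + δ) (by
      rw [show s0 + δ - s0 = δ by ring, abs_of_pos hδ])
    refine ⟨⟨u + (s0 + δ) • (v - u), SimplicialComplex.convexHull_subset_space hσ
      ((hseg _).2 ⟨_, h1, h2, rfl⟩)⟩, h3, ?_⟩
    show 0 < inner ℝ (v - u) ((u + (s0 + δ) • (v - u)) - x.1)
    rw [hφ]
    have := pow_pos hn 2
    nlinarith

end Pool.Agent.H333
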