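import Mathlib

set_option autoImplicit false

namespace Pool.Agent.H333

open Set Topology

/-! ### Upper bound -/

/-- Enlarged bricks of size `h`. -/
def Brick (h : ℝ) (b : ℤ × ℤ) : Set (ℝ × ℝ) :=
  {q | h * (b.1 + b.2 / 2 - 1 / 8) < q.1 ∧ q.1 < h * (b.1 + b.2 / 2 + 9 / 8) ∧
    h * (b.2 - 1 / 8) < q.2 ∧ q.2 < h * (b.2 + 9 / 8)}

theorem isOpen_brick (h : ℝ) (b : ℤ × ℤ) : IsOpen (Brick h b) := by
  unfold Brick
  refine (isOpen_lt continuous_const continuous_fst).inter ?_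
  refine (isOpen_lt continuous_fst continuous_const).inter ?_
  exact (isOpen_lt continuous_const continuous_snd).inter
    (isOpen_lt continuous_snd continuous_const)

theorem brick_dist {h : ℝ} {b : ℤ × ℤ} {p q : ℝ × ℝ} (hp : p ∈ Brick h b)
    (hq : q ∈ Brick h b) : dist p q < 2 * h := by
  obtain ⟨h1, h2, h3, h4⟩ := hp
  obtain ⟨g1, g2, g3, g4⟩ := hq
  have hh : 0 < h := by nlinarith
  rw [Prod.dist_eq]
  apply max_lt
  · rw [Real.dist_eq, abs_lt]
    constructor <;> nlinarith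
  · rw [Real.dist_eq, abs_lt]
    constructor <;> nlinarith

theorem exists_brick {h : ℝ} (hh : 0 < h) (q : ℝ × ℝ) : ∃ b, q ∈ Brick h b := by
  refine ⟨(⌊q.1 / h - (⌊q.2 / h⌋ : ℝ) / 2⌋, ⌊q.2 / h⌋), ?_⟩
  have h1 := Int.floor_le (q.1 / h - (⌊q.2 / h⌋ : ℝ) / 2)
  have h2 := Int.lt_floor_add_one (q.1 / h - (⌊q.2 / h⌋ : ℝ) / 2)
  have h3 := Int.floor_le (q.2 / h)
  have h4 := Int.lt_floor_add_one (q.2 / h)
  set j : ℤ := ⌊q.2 / h⌋
  set m : ℤ := ⌊q.1 / h - (j : ℝ) / 2⌋
  have e1 : q.1 = h * (q.1 / h) := by field_simp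
  have e2 : q.2 = h * (q.2 / h) := by field_simp
  refine ⟨?_, ?_, ?_, ?_⟩
  · show h * ((m : ℝ) + j / 2 - 1 / 8) < q.1
    rw [e1]; apply mul_lt_mul_of_pos_left _ hh; linarith
  · show q.1 < h * ((m : ℝ) + j / 2 + 9 / 8)
    rw [e1]; apply mul_lt_mul_of_pos_left _ hh; linarith
  · show h * ((j : ℝ) - 1 / 8) < q.2
    rw [e2]; apply mul_lt_mul_of_pos_left _ hh; linarith
  · show q.2 < h * ((j : ℝ) + 9 / 8)
    rw [e2]; apply mul_lt_mul_of_pos_left _ hh; linarith

theorem brick_color {h : ℝ} (hh : 0 < h) {b b' : ℤ × ℤ} {q : ℝ × ℝ} (hb : q ∈ Brick h b)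
    (hb' : q ∈ Brick h b') (hc : (b.1 - b.2) % 3 = (b'.1 - b'.2) % 3) : b = b' := by
  obtain ⟨m, j⟩ := b
  obtain ⟨m', j'⟩ := b'
  obtain ⟨h1, h2, h3, h4⟩ := hb
  obtain ⟨g1, g2, g3, g4⟩ := hb'
  simp only at h1 h2 h3 h4 g1 g2 g3 g4 hc
  have a1 : (m : ℝ) + j / 2 - 1 / 8 < m' + j' / 2 + 9 / 8 :=
    lt_of_mul_lt_mul_left (h1.trans g2) hh.le
  have a2 : (m' : ℝ) + j' / 2 - 1 / 8 < m + j / 2 + 9 / 8 :=
    lt_of_mul_lt_mul_left (g1.trans h2) hh.le
  have a3 : (j : ℝ) - 1 / 8 < j' + 9 / 8 := lt_of_mul_lt_mul_left (h3.trans g4) hh.le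
  have a4 : (j' : ℝ) - 1 / 8 < j + 9 / 8 := lt_of_mul_lt_mul_left (g3.trans h4) hh.le
  have b1 : 2 * m + j < 2 * m' + j' + 3 := by
    have : ((2 * m + j : ℤ) : ℝ) < ((2 * m' + j' + 3 : ℤ) : ℝ) := by push_cast; linarith
    exact_mod_cast this
  have b2 : 2 * m' + j' < 2 * m + j + 3 := by
    have : ((2 * m' + j' : ℤ) : ℝ) < ((2 * m + j + 3 : ℤ) : ℝ) := by push_cast; linarith
    exact_mod_cast this
  have b3 : j < j' + 2 := by
    have : ((j : ℤ) : ℝ) < ((j' + 2 : ℤ) : ℝ) := by push_cast; linarith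
    exact_mod_cast this
  have b4 : j' < j + 2 := by
    have : ((j' : ℤ) : ℝ) < ((j + 2 : ℤ) : ℝ) := by push_cast; linarith
    exact_mod_cast this
  ext
  · show m = m'
    omega
  · show j = j'
    omega

theorem dim_le (X : Set (ℝ × ℝ)) [CompactSpace X] (k : ℕ) (U : Fin k → Set X)
    (hU : ∀ i, IsOpen (U i)) (hcov : (⋃ i, U i) = Set.univ) :
    ∃ V : Fin k → Set X, (∀ i, IsOpen (V i)) ∧ (∀ i, V i ⊆ U i) ∧
        (⋃ i, V i) = Set.univ ∧ ∀ x : X, {i | x ∈ V i}.ncard ≤ 2 + 1 := by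
  classical
  obtain ⟨δ, hδ, hleb⟩ := lebesgue_number_lemma_of_metric (isCompact_univ (X := X)) hU
    (by rw [hcov])
  choose c hc using fun x : X => hleb x (mem_univ x)
  let h := δ / 2
  have hh : 0 < h := by positivity
  let φ : ℤ × ℤ → Option (Fin k) := fun b =>
    if hb : ∃ x : X, x.1 ∈ Brick h b then some (c hb.choose) else none
  have hφ : ∀ b i (x : X), x.1 ∈ Brick h b → φ b = some i → x ∈ U i := by
    intro b i x hx hi
    have hb : ∃ x : X, x.1 ∈ Brick h b := ⟨x, hx⟩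
    simp only [φ, hb, ↓reduceDIte, Option.some.injEq] at hi
    rw [← hi]
    apply hc hb.choose
    rw [Metric.mem_ball, Subtype.dist_eq]
    have := brick_dist hx hb.choose_spec
    have h2 : 2 * h = δ := by simp only [h]; ring
    rwa [h2] at this
  refine ⟨fun i => {x | ∃ b, x.1 ∈ Brick h b ∧ φ b = some i}, ?_, ?_, ?_, ?_⟩
  · intro i
    have : {x : X | ∃ b, x.1 ∈ Brick h b ∧ φ b = some i} =
        ⋃ b ∈ {b | φ b = some i}, Subtype.val ⁻¹' (Brick h b) := by
      ext x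
      simp only [mem_iUnion, mem_preimage, exists_prop]
      constructor
      · rintro ⟨b, h1, h2⟩; exact ⟨b, h2, h1⟩
      · rintro ⟨b, h2, h1⟩; exact ⟨b, h1, h2⟩
    show IsOpen {x : X | ∃ b, x.1 ∈ Brick h b ∧ φ b = some i}
    rw [this]
    exact isOpen_biUnion fun b _ => (isOpen_brick h b).preimage continuous_subtype_val
  · rintro i x ⟨b, hb, hi⟩
    exact hφ b i x hb hi
  · rw [eq_univ_iff_forall]
    intro x
    obtain ⟨b, hb⟩ := exists_brick hh x.1
    have hb' : ∃ x : X, x.1 ∈ Brick h b := ⟨x, hb⟩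
    rw [mem_iUnion]
    refine ⟨c hb'.choose, b, hb, ?_⟩
    simp only [φ, hb', ↓reduceDIte]
  · intro x
    let g : Fin k → ℤ := fun i =>
      if hi : ∃ b, x.1 ∈ Brick h b ∧ φ b = some i then
        (hi.choose.1 - hi.choose.2) % 3 else 0
    have h3 : ({0, 1, 2} : Set ℤ).ncard = 3 := by
      rw [Set.ncard_eq_toFinset_card']
      rfl
    calc {i | ∃ b, x.1 ∈ Brick h b ∧ φ b = some i}.ncard
        ≤ ({0, 1, 2} : Set ℤ).ncard := by
          apply Set.ncard_le_ncard_of_injOn g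
          · intro i hi
            have hi' : ∃ b, x.1 ∈ Brick h b ∧ φ b = some i := hi
            simp only [g, hi', ↓reduceDIte, mem_insert_iff, mem_singleton_iff]
            omega
          · intro i hi i' hi' hgg
            have hi1 : ∃ b, x.1 ∈ Brick h b ∧ φ b = some i := hi
            have hi2 : ∃ b, x.1 ∈ Brick h b ∧ φ b = some i' := hi'
            simp only [g, hi1, hi2, ↓reduceDIte] at hgg
            have := brick_color hh hi1.choose_spec.1 hi2.choose_spec.1 hgg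
            have h5 := hi1.choose_spec.2
            have h6 := hi2.choose_spec.2
            rw [this] at h5
            rw [h5] at h6
            exact Option.some.inj h6
      _ = 2 + 1 := by rw [h3]

/-! ### Lower bound -/

theorem side {ψ : ℝ → ℝ} (hψ : Continuous ψ) (hcos : ∀ s ∈ Icc (0:ℝ) 1, 0 < Real.cos (ψ s)) :
    ∃ k : ℤ, ∀ s ∈ Icc (0:ℝ) 1, |ψ s - 2 * Real.pi * k| < Real.pi / 2 := by
  have hpi := Real.pi_pos
  -- choose k for s = 0
  let k : ℤ := round (ψ 0 / (2 * Real.pi))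
  have hk : |ψ 0 - 2 * Real.pi * k| ≤ Real.pi := by
    have h1 := abs_sub_round (ψ 0 / (2 * Real.pi))
    have h2 : ψ 0 - 2 * Real.pi * k = (2 * Real.pi) * (ψ 0 / (2 * Real.pi) - k) := by
      field_simp
    rw [h2, abs_mul, abs_of_pos (by positivity : (0:ℝ) < 2 * Real.pi)]
    calc 2 * Real.pi * |ψ 0 / (2 * Real.pi) - k| ≤ 2 * Real.pi * (1 / 2) := by
          gcongr
      _ = Real.pi := by ring
  have hcos0 : ∀ s : ℝ, Real.cos (ψ s - 2 * Real.pi * k) = Real.cos (ψ s) := by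
    intro s
    rw [show ψ s - 2 * Real.pi * k = ψ s - k * (2 * Real.pi) by ring]
    exact Real.cos_sub_int_mul_two_pi _ _
  have h0 : |ψ 0 - 2 * Real.pi * k| < Real.pi / 2 := by
    by_contra hcon
    push Not at hcon
    have h1 : Real.cos |ψ 0 - 2 * Real.pi * k| ≤ 0 :=
      Real.cos_nonpos_of_pi_div_two_le_of_le hcon (by linarith)
    rw [Real.cos_abs, hcos0] at h1
    have := hcos 0 (by simp)
    linarith
  refine ⟨k, fun s hs => ?_⟩
  by_contra hcon
  push Not at hcon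
  -- intermediate value for |ψ - 2πk|
  have hc : ContinuousOn (fun s => |ψ s - 2 * Real.pi * k|) (Icc 0 s) := by
    fun_prop
  have := intermediate_value_Icc hs.1 hc
  obtain ⟨t, ht, htt⟩ := this ⟨h0.le, hcon⟩
  have h2 : Real.cos |ψ t - 2 * Real.pi * k| = 0 := by
    have : |ψ t - 2 * Real.pi * k| = Real.pi / 2 := htt
    rw [this, Real.cos_pi_div_two]
  rw [Real.cos_abs, hcos0] at h2
  have := hcos t ⟨ht.1, ht.2.trans hs.2⟩
  linarith

/-- Poincaré–Miranda in dimension two. -/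
theorem miranda (F : ℝ × ℝ → ℂ) (hF : Continuous F)
    (hl : ∀ s ∈ Icc (0:ℝ) 1, (F (0, s)).re < 0) (hr : ∀ s ∈ Icc (0:ℝ) 1, 0 < (F (1, s)).re)
    (hb : ∀ s ∈ Icc (0:ℝ) 1, (F (s, 0)).im < 0) (ht : ∀ s ∈ Icc (0:ℝ) 1, 0 < (F (s, 1)).im) :
    ∃ p, F p = 0 := by
  by_contra hcon
  push Not at hcon
  have hcs : ContractibleSpace (univ : Set (ℝ × ℝ)) :=
    convex_univ.contractibleSpace ⟨0, mem_univ _⟩
  have hsc : IsSimplyConnected (univ : Set (ℝ × ℝ)) :=
    (inferInstance : SimplyConnectedSpace (univ : Set (ℝ × ℝ)))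
  obtain ⟨g, hg, hgF⟩ := Complex.exists_continuousOn_eqOn_exp_comp hsc isOpen_univ
    hF.continuousOn (by rintro ⟨p, _, hp⟩; exact hcon p hp)
  have hg' : Continuous g := continuousOn_univ.1 hg
  have hexp : ∀ p, Complex.exp (g p) = F p := fun p => hgF (mem_univ p)
  have hre : ∀ p, (F p).re = Real.exp (g p).re * Real.cos (g p).im := by
    intro p; rw [← hexp, Complex.exp_re]
  have him : ∀ p, (F p).im = Real.exp (g p).re * Real.sin (g p).im := by
    intro p; rw [← hexp, Complex.exp_im]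
  have hpi := Real.pi_pos
  -- left side
  obtain ⟨a, ha⟩ := side (ψ := fun s => (g (0, s)).im - Real.pi) (by fun_prop) (by
    intro s hs
    have h1 := hl s hs
    rw [hre] at h1
    rw [Real.cos_sub_pi]
    have h2 := Real.exp_pos (g (0, s)).re
    have h3 : Real.cos (g (0, s)).im < 0 := by
      by_contra h; push Not at h
      have := mul_nonneg h2.le h
      linarith
    linarith)
  obtain ⟨b, hb'⟩ := side (ψ := fun s => (g (s, 0)).im + Real.pi / 2) (by fun_prop) (by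
    intro s hs
    have h1 := hb s hs
    rw [him] at h1
    rw [Real.cos_add_pi_div_two]
    have h2 := Real.exp_pos (g (s, 0)).re
    have h3 : Real.sin (g (s, 0)).im < 0 := by
      by_contra h; push Not at h
      have := mul_nonneg h2.le h
      linarith
    linarith)
  obtain ⟨c, hc⟩ := side (ψ := fun s => (g (1, s)).im) (by fun_prop) (by
    intro s hs
    have h1 := hr s hs
    rw [hre] at h1
    have h2 := Real.exp_pos (g (1, s)).re
    by_contra h; push Not at h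
    have := mul_nonpos_of_nonneg_of_nonpos h2.le h
    linarith)
  obtain ⟨d, hd⟩ := side (ψ := fun s => (g (s, 1)).im - Real.pi / 2) (by fun_prop) (by
    intro s hs
    have h1 := ht s hs
    rw [him] at h1
    rw [Real.cos_sub_pi_div_two]
    have h2 := Real.exp_pos (g (s, 1)).re
    by_contra h; push Not at h
    have := mul_nonpos_of_nonneg_of_nonpos h2.le h
    linarith)
  have m0 : (0:ℝ) ∈ Icc (0:ℝ) 1 := by simp
  have m1 : (1:ℝ) ∈ Icc (0:ℝ) 1 := by simp
  have l0 := abs_lt.1 (ha 0 m0)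
  have l1 := abs_lt.1 (ha 1 m1)
  have b0 := abs_lt.1 (hb' 0 m0)
  have b1 := abs_lt.1 (hb' 1 m1)
  have r0 := abs_lt.1 (hc 0 m0)
  have r1 := abs_lt.1 (hc 1 m1)
  have t0 := abs_lt.1 (hd 0 m0)
  have t1 := abs_lt.1 (hd 1 m1)
  have conv : ∀ (x y : ℤ) (z : ℝ), 2 * Real.pi * x - 2 * Real.pi * y < 2 * Real.pi * z →
      (x : ℝ) < y + z := by
    intro x y z h
    have : 2 * Real.pi * (x : ℝ) < 2 * Real.pi * (y + z) := by linarith
    exact lt_of_mul_lt_mul_left this (by positivity)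
  have c1 : (b : ℝ) < a + 5 / 4 := conv b a _ (by linarith [l0.1, l0.2, b0.1, b0.2])
  have c2 : (a : ℝ) < b + (-1 / 4) := conv a b _ (by linarith [l0.1, l0.2, b0.1, b0.2])
  have c3 : (c : ℝ) < b + 1 / 4 := conv c b _ (by linarith [b1.1, b1.2, r0.1, r0.2])
  have c4 : (b : ℝ) < c + 3 / 4 := conv b c _ (by linarith [b1.1, b1.2, r0.1, r0.2])
  have c5 : (d : ℝ) < c + 1 / 4 := conv d c _ (by linarith [r1.1, r1.2, t1.1, t1.2])
  have c6 : (c : ℝ) < d + 3 / 4 := conv c d _ (by linarith [r1.1, r1.2, t1.1, t1.2])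
  have c7 : (a : ℝ) < d + 1 / 4 := conv a d _ (by linarith [l1.1, l1.2, t0.1, t0.2])
  have c8 : (d : ℝ) < a + 3 / 4 := conv d a _ (by linarith [l1.1, l1.2, t0.1, t0.2])
  have i1 : a < b := by
    have : (a : ℝ) < b := by linarith
    exact_mod_cast this
  have i2 : b < c + 1 := by
    have : ((b : ℤ) : ℝ) < ((c + 1 : ℤ) : ℝ) := by push_cast; linarith
    exact_mod_cast this
  have i3 : c < d + 1 := by
    have : ((c : ℤ) : ℝ) < ((d + 1 : ℤ) : ℝ) := by push_cast; linarith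
    exact_mod_cast this
  have i4 : d < a + 1 := by
    have : ((d : ℤ) : ℝ) < ((a + 1 : ℤ) : ℝ) := by push_cast; linarith
    exact_mod_cast this
  omega

/-- Clamping to `[0,1]`. -/
noncomputable def cl (t : ℝ) : ℝ := max 0 (min t 1)

theorem cl_mem (t : ℝ) : cl t ∈ Icc (0:ℝ) 1 := by
  unfold cl
  exact ⟨le_max_left _ _, max_le zero_le_one (min_le_right _ _)⟩

theorem cl_of_mem {t : ℝ} (ht : t ∈ Icc (0:ℝ) 1) : cl t = t := by
  unfold cl
  rw [min_eq_left ht.2, max_eq_right ht.1]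

theorem cl_cont : Continuous cl := by
  unfold cl; fun_prop

/-- the test cover -/
def TC (X : Set (ℝ × ℝ)) : Fin 4 → Set X :=
  ![{p | p.1.1 + 1 < 2 / 3 ∧ p.1.2 < 2 / 3}, {p | 1 / 3 < p.1.1 + 1 ∧ p.1.2 < 2 / 3},
    {p | p.1.1 + 1 < 2 / 3 ∧ 1 / 3 < p.1.2}, {p | 1 / 3 < p.1.1 + 1 ∧ 1 / 3 < p.1.2}]

theorem dim_ge (X : Set (ℝ × ℝ)) (hS : Icc (-1:ℝ) 0 ×ˢ Icc (0:ℝ) 1 ⊆ X) :
    ¬ (∀ (k : ℕ) (U : Fin k → Set X), (∀ i, IsOpen (U i)) → (⋃ i, U i) = Set.univ →
      ∃ V : Fin k → Set X, (∀ i, IsOpen (V i)) ∧ (∀ i, V i ⊆ U i) ∧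
        (⋃ i, V i) = Set.univ ∧ ∀ x : X, {i | x ∈ V i}.ncard ≤ 2) := by
  intro H
  have c1 : Continuous fun p : X => p.1.1 := continuous_fst.comp continuous_subtype_val
  have c2 : Continuous fun p : X => p.1.2 := continuous_snd.comp continuous_subtype_val
  have c1' : Continuous fun p : X => p.1.1 + 1 := c1.add continuous_const
  obtain ⟨V, hVo, hVU, hVc, hV2⟩ := H 4 (TC X)
    (by
      intro i
      fin_cases i
      · exact (isOpen_lt c1' continuous_const).inter (isOpen_lt c2 continuous_const)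
      · exact (isOpen_lt continuous_const c1').inter (isOpen_lt c2 continuous_const)
      · exact (isOpen_lt c1' continuous_const).inter (isOpen_lt continuous_const c2)
      · exact (isOpen_lt continuous_const c1').inter (isOpen_lt continuous_const c2))
    (by
      rw [eq_univ_iff_forall]
      intro p
      rw [mem_iUnion]
      by_cases h1 : p.1.1 + 1 < 2 / 3
      · by_cases h2 : p.1.2 < 2 / 3
        · exact ⟨0, h1, h2⟩
        · exact ⟨2, h1, by push Not at h2; show (1:ℝ) / 3 < p.1.2; linarith⟩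
      · by_cases h2 : p.1.2 < 2 / 3
        · exact ⟨1, by push Not at h1; show (1:ℝ) / 3 < p.1.1 + 1; linarith, h2⟩
        · exact ⟨3, by push Not at h1; show (1:ℝ) / 3 < p.1.1 + 1; linarith,
            by push Not at h2; show (1:ℝ) / 3 < p.1.2; linarith⟩)
  -- the parametrisation of the square
  let q : ℝ × ℝ → X := fun p => ⟨(cl p.1 - 1, cl p.2), hS ⟨by
    have := cl_mem p.1
    exact ⟨by show -1 ≤ cl p.1 - 1; linarith [this.1], by show cl p.1 - 1 ≤ 0; linarith [this.2]⟩,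
    cl_mem p.2⟩⟩
  have hq : Continuous q := by
    apply Continuous.subtype_mk
    have h1 := cl_cont.comp (continuous_fst (X := ℝ) (Y := ℝ))
    have h2 := cl_cont.comp (continuous_snd (X := ℝ) (Y := ℝ))
    exact (h1.sub continuous_const).prodMk h2
  have hV0 : ∀ p : X, (p.1.1 + 1 = 1 → p ∉ V 0 ∧ p ∉ V 2) ∧ (p.1.1 + 1 = 0 → p ∉ V 1 ∧ p ∉ V 3) ∧
      (p.1.2 = 1 → p ∉ V 0 ∧ p ∉ V 1) ∧ (p.1.2 = 0 → p ∉ V 2 ∧ p ∉ V 3) := by
    intro p
    refine ⟨fun h => ⟨fun h' => ?_, fun h' => ?_⟩, fun h => ⟨fun h' => ?_, fun h' => ?_⟩,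
      fun h => ⟨fun h' => ?_, fun h' => ?_⟩, fun h => ⟨fun h' => ?_, fun h' => ?_⟩⟩
    · have h1 : p.1.1 + 1 < 2 / 3 := (hVU 0 h').1
      linarith
    · have h1 : p.1.1 + 1 < 2 / 3 := (hVU 2 h').1
      linarith
    · have h1 : 1 / 3 < p.1.1 + 1 := (hVU 1 h').1
      linarith
    · have h1 : 1 / 3 < p.1.1 + 1 := (hVU 3 h').1
      linarith
    · have h1 : p.1.2 < 2 / 3 := (hVU 0 h').2
      linarith
    · have h1 : p.1.2 < 2 / 3 := (hVU 1 h').2
      linarith
    · have h1 : 1 / 3 < p.1.2 := (hVU 2 h').2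
      linarith
    · have h1 : 1 / 3 < p.1.2 := (hVU 3 h').2
      linarith
  have hne : ∀ i, ((V i)ᶜ).Nonempty := by
    have e0 : (q (0, 0)).1.1 + 1 = 0 := by
      show cl 0 - 1 + 1 = 0
      rw [cl_of_mem (by simp)]; ring
    have e1 : (q (1, 0)).1.1 + 1 = 1 := by
      show cl 1 - 1 + 1 = 1
      rw [cl_of_mem (by simp)]; ring
    intro i
    fin_cases i
    · exact ⟨_, ((hV0 _).1 e1).1⟩
    · exact ⟨_, ((hV0 _).2.1 e0).1⟩
    · exact ⟨_, ((hV0 _).1 e1).2⟩
    · exact ⟨_, ((hV0 _).2.1 e0).2⟩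
  let w : Fin 4 → ℝ × ℝ → ℝ := fun i p => Metric.infDist (q p) (V i)ᶜ
  have hwc : ∀ i, Continuous (w i) := fun i => (Metric.continuous_infDist_pt _).comp hq
  have hw0 : ∀ i p, 0 ≤ w i p := fun i p => Metric.infDist_nonneg
  have hwpos : ∀ i p, 0 < w i p ↔ q p ∈ V i := by
    intro i p
    have := ((hVo i).isClosed_compl).notMem_iff_infDist_pos (hne i) (x := q p)
    rw [← this]; simp
  have hwz : ∀ i p, q p ∉ V i → w i p = 0 := by
    intro i p h
    have h1 := (hwpos i p).not.2 h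
    have h2 := hw0 i p
    linarith
  have hsum : ∀ p, 0 < w 0 p + w 1 p + w 2 p + w 3 p := by
    intro p
    have : q p ∈ ⋃ i, V i := by rw [hVc]; trivial
    obtain ⟨i, hi⟩ := mem_iUnion.1 this
    have h1 := (hwpos i p).2 hi
    have h20 := hw0 0 p
    have h21 := hw0 1 p
    have h22 := hw0 2 p
    have h23 := hw0 3 p
    fin_cases i <;> simp at h1 <;> linarith
  let F : ℝ × ℝ → ℂ := fun p =>
    ((w 1 p + w 3 p - w 0 p - w 2 p : ℝ) : ℂ) + (3 * (w 2 p + w 3 p) - (w 0 p + w 1 p) : ℝ) *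
      Complex.I
  have hFre : ∀ p, (F p).re = w 1 p + w 3 p - w 0 p - w 2 p := by
    intro p; simp [F]
  have hFim : ∀ p, (F p).im = 3 * (w 2 p + w 3 p) - (w 0 p + w 1 p) := by
    intro p; simp [F]
  have hFc : Continuous F := by
    have h0 := hwc 0
    have h1 := hwc 1
    have h2 := hwc 2
    have h3 := hwc 3
    apply Continuous.add
    · exact Complex.continuous_ofReal.comp (((h1.add h3).sub h0).sub h2)
    · exact (Complex.continuous_ofReal.comp
        ((continuous_const.mul (h2.add h3)).sub (h0.add h1))).mul continuous_const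
  obtain ⟨p, hp⟩ := miranda F hFc
    (by
      intro s hs
      have e : (q (0, s)).1.1 + 1 = 0 := by
        show cl 0 - 1 + 1 = 0
        rw [cl_of_mem (by simp)]; ring
      have h1 := hwz _ _ ((hV0 _).2.1 e).1
      have h3 := hwz _ _ ((hV0 _).2.1 e).2
      have := hsum (0, s)
      rw [hFre]; linarith)
    (by
      intro s hs
      have e : (q (1, s)).1.1 + 1 = 1 := by
        show cl 1 - 1 + 1 = 1
        rw [cl_of_mem (by simp)]; ring
      have h1 := hwz _ _ ((hV0 _).1 e).1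
      have h3 := hwz _ _ ((hV0 _).1 e).2
      have := hsum (1, s)
      rw [hFre]; linarith)
    (by
      intro s hs
      have e : (q (s, 0)).1.2 = 0 := by
        show cl 0 = 0
        rw [cl_of_mem (by simp)]
      have h1 := hwz _ _ ((hV0 _).2.2.2 e).1
      have h3 := hwz _ _ ((hV0 _).2.2.2 e).2
      have := hsum (s, 0)
      rw [hFim]; linarith)
    (by
      intro s hs
      have e : (q (s, 1)).1.2 = 1 := by
        show cl 1 = 1
        rw [cl_of_mem (by simp)]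
      have h1 := hwz _ _ ((hV0 _).2.2.1 e).1
      have h3 := hwz _ _ ((hV0 _).2.2.1 e).2
      have := hsum (s, 1)
      rw [hFim]; linarith)
  have e1 : w 1 p + w 3 p - w 0 p - w 2 p = 0 := by rw [← hFre, hp]; rfl
  have e2 : 3 * (w 2 p + w 3 p) - (w 0 p + w 1 p) = 0 := by rw [← hFim, hp]; rfl
  have htri : ∀ i j k : Fin 4, i ≠ j → i ≠ k → j ≠ k → 0 < w i p → 0 < w j p → 0 < w k p →
      False := by
    intro i j k hij hik hjk h1 h2 h3
    have hsub : ({i, j, k} : Set (Fin 4)) ⊆ {i | q p ∈ V i} := by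
      rintro l (rfl | rfl | rfl)
      · exact (hwpos _ _).1 h1
      · exact (hwpos _ _).1 h2
      · exact (hwpos _ _).1 h3
    have h4 := Set.ncard_le_ncard hsub (Set.toFinite _)
    have h5 : ({i, j, k} : Set (Fin 4)).ncard = 3 := by
      rw [Set.ncard_eq_three]
      exact ⟨i, j, k, hij, hik, hjk, rfl⟩
    have h6 := hV2 (q p)
    omega
  have hs := hsum p
  rcases (hw0 0 p).eq_or_lt with h0 | h0 <;> rcases (hw0 1 p).eq_or_lt with h1 | h1 <;>
    rcases (hw0 2 p).eq_or_lt with h2 | h2 <;> rcases (hw0 3 p).eq_or_lt with h3 | h3 <;>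
    first
      | linarith
      | exact htri 0 1 2 (by decide) (by decide) (by decide) h0 h1 h2
      | exact htri 0 1 3 (by decide) (by decide) (by decide) h0 h1 h3
      | exact htri 0 2 3 (by decide) (by decide) (by decide) h0 h2 h3
      | exact htri 1 2 3 (by decide) (by decide) (by decide) h1 h2 h3

end Pool.Agent.H333
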