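import Mathlib

set_option autoImplicit false

namespace Pool.Agent.H333

open Set Topology

/-- Preimage of a preconnected set under a closed surjection with preconnected fibres. -/
theorem mono_preimage {X Y : Type*} [TopologicalSpace X] [TopologicalSpace Y] {f : X → Y}
    (hc : IsClosedMap f) (hf : Function.Surjective f)
    (hfib : ∀ y, IsPreconnected (f ⁻¹' {y})) {B : Set Y} (hB : IsPreconnected B) :
    IsPreconnected (f ⁻¹' B) := by
  rw [isPreconnected_closed_iff]
  rintro T T' hT hT' hsub ⟨x, hxB, hxT⟩ ⟨x', hxB', hxT'⟩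
  have h1 := isPreconnected_closed_iff.1 hB (f '' T) (f '' T') (hc T hT) (hc T' hT')
    (by
      intro y hy
      obtain ⟨z, rfl⟩ := hf y
      rcases hsub hy with h | h
      · exact Or.inl ⟨z, h, rfl⟩
      · exact Or.inr ⟨z, h, rfl⟩)
    ⟨f x, hxB, x, hxT, rfl⟩ ⟨f x', hxB', x', hxT', rfl⟩
  obtain ⟨y, hyB, ⟨u, huT, huy⟩, ⟨u', huT', huy'⟩⟩ := h1
  have h2 := isPreconnected_closed_iff.1 (hfib y) T T' hT hT'
    (by
      intro z hz
      apply hsub
      have : f z = y := hz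
      show f z ∈ B
      rw [this]; exact hyB)
    ⟨u, huy, huT⟩ ⟨u', huy', huT'⟩
  obtain ⟨z, hz, hzT⟩ := h2
  refine ⟨z, ?_, hzT⟩
  have : f z = y := hz
  show f z ∈ B
  rw [this]; exact hyB

theorem seq_surj : ∀ (j : ℕ) (Z : ℕ → Type) (f : ∀ k, Z (k + 1) → Z k)
    (_ : ∀ k, Function.Surjective (f k)) (w : Z j),
    ∃ x : ∀ k, Z k, (∀ k, f k (x (k + 1)) = x k) ∧ x j = w := by
  intro j
  induction j with
  | zero =>
    intro Z f hf w
    refine ⟨fun k => Nat.rec w (fun k z => (hf k z).choose) k, ?_, rfl⟩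
    intro k
    exact (hf k _).choose_spec
  | succ j ih =>
    intro Z f hf w
    obtain ⟨x, hx, hxj⟩ := ih (fun k => Z (k + 1)) (fun k => f (k + 1)) (fun k => hf (k + 1)) w
    refine ⟨fun k => Nat.casesOn k (f 0 (x 0)) (fun k => x k), ?_, hxj⟩
    intro k
    cases k with
    | zero => rfl
    | succ k => exact hx k

section
variable {Z : ℕ → Type} (f : ∀ k, Z (k + 1) → Z k)

/-- The inverse limit. -/
abbrev IL : Type := {x : ∀ k : ℕ, Z k // ∀ k, f k (x (k + 1)) = x k}

variable {f}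

theorem eq_of_eq_ge (x x' : IL f) (i d : ℕ) (h : x.1 (i + d) = x'.1 (i + d)) : x.1 i = x'.1 i := by
  induction d with
  | zero => exact h
  | succ d ih =>
    apply ih
    rw [← x.2 (i + d), ← x'.2 (i + d)]
    exact congrArg _ h

variable [∀ k, TopologicalSpace (Z k)] [∀ k, CompactSpace (Z k)] [∀ k, T2Space (Z k)]

theorem compact_IL (hf : ∀ k, Continuous (f k)) : CompactSpace (IL f) := by
  suffices h : IsClosed {x : ∀ k : ℕ, Z k | ∀ k, f k (x (k + 1)) = x k} from
    isCompact_iff_compactSpace.1 h.isCompact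
  have : {x : ∀ k : ℕ, Z k | ∀ k, f k (x (k + 1)) = x k} =
      ⋂ k, {x : ∀ k : ℕ, Z k | f k (x (k + 1)) = x k} := by
    ext x; simp
  rw [this]
  apply isClosed_iInter
  intro k
  exact isClosed_eq ((hf k).comp (continuous_apply _)) (continuous_apply _)

theorem separate (hf : ∀ k, Continuous (f k)) {A B : Set (IL f)} (hA : IsClosed A) (hB : IsClosed B)
    (hAB : Disjoint A B) : ∃ i0, ∀ i, i0 ≤ i → ∀ a ∈ A, ∀ b ∈ B, a.1 i ≠ b.1 i := by
  have := compact_IL hf
  have hc : IsCompact (A ×ˢ B) := (hA.isCompact).prod hB.isCompact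
  have hmono : ∀ i j (p : IL f × IL f), i ≤ j → p.1.1 i ≠ p.2.1 i → p.1.1 j ≠ p.2.1 j := by
    intro i j p hij h h'
    obtain ⟨d, rfl⟩ := Nat.exists_eq_add_of_le hij
    exact h (eq_of_eq_ge _ _ i d h')
  obtain ⟨i, hi⟩ := hc.elim_directed_cover (fun i => {p : IL f × IL f | p.1.1 i ≠ p.2.1 i})
    (by
      intro i
      have h1 : Continuous fun p : IL f × IL f => p.1.1 i :=
        (continuous_apply i).comp (continuous_subtype_val.comp continuous_fst)
      have h2 : Continuous fun p : IL f × IL f => p.2.1 i :=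
        (continuous_apply i).comp (continuous_subtype_val.comp continuous_snd)
      exact isOpen_ne_fun h1 h2)
    (by
      rintro ⟨a, b⟩ ⟨ha, hb⟩
      rw [mem_iUnion]
      by_contra hcon
      push Not at hcon
      have hab : a = b := by
        apply Subtype.ext
        funext k
        have := hcon k
        simpa using this
      exact Set.disjoint_left.1 hAB ha (hab ▸ hb))
    (by
      intro i j
      refine ⟨max i j, ?_, ?_⟩
      · intro p hp; exact hmono _ _ p (le_max_left _ _) hp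
      · intro p hp; exact hmono _ _ p (le_max_right _ _) hp)
  refine ⟨i, fun k hk a ha b hb => ?_⟩
  exact hmono i k (a, b) hk (hi ⟨ha, hb⟩)

theorem fibre_image (hf : ∀ k, Continuous (f k)) (hs : ∀ k, Function.Surjective (f k))
    (hfib : ∀ k y, IsPreconnected ((f k) ⁻¹' {y})) (i d : ℕ) (y : Z i) :
    IsPreconnected ((fun x : IL f => x.1 (i + d)) '' {x | x.1 i = y}) := by
  induction d with
  | zero =>
    apply Set.Subsingleton.isPreconnected
    rintro _ ⟨x, hx, rfl⟩ _ ⟨x', hx', rfl⟩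
    have h1 : x.1 i = y := hx
    have h2 : x'.1 i = y := hx'
    show x.1 i = x'.1 i
    rw [h1, h2]
  | succ d ih =>
    have key : ((fun x : IL f => x.1 (i + (d + 1))) '' {x | x.1 i = y}) =
        (f (i + d)) ⁻¹' ((fun x : IL f => x.1 (i + d)) '' {x | x.1 i = y}) := by
      ext w
      constructor
      · rintro ⟨x, hx, rfl⟩
        exact ⟨x, hx, (x.2 (i + d)).symm⟩
      · rintro ⟨x, hx, hxw⟩
        obtain ⟨z, hz, hzw⟩ := seq_surj (i + d + 1) Z f hs w
        refine ⟨⟨z, hz⟩, ?_, hzw⟩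
        have h1 : z (i + d) = x.1 (i + d) := by
          rw [← hz (i + d), hzw]; exact hxw.symm
        have h2 := eq_of_eq_ge (⟨z, hz⟩ : IL f) x i d h1
        show z i = y
        rw [← show x.1 i = y from hx]
        exact h2
    rw [key]
    exact mono_preimage ((hf _).isClosedMap) (hs _) (hfib _) ih

theorem fibre_preconn (hf : ∀ k, Continuous (f k)) (hs : ∀ k, Function.Surjective (f k))
    (hfib : ∀ k y, IsPreconnected ((f k) ⁻¹' {y})) (i : ℕ) (y : Z i) :
    IsPreconnected {x : IL f | x.1 i = y} := by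
  have := compact_IL hf
  have hcl : IsClosed {x : IL f | x.1 i = y} :=
    isClosed_eq ((continuous_apply i).comp continuous_subtype_val) continuous_const
  rw [isPreconnected_closed_iff]
  rintro T T' hT hT' hsub ⟨x, hx, hxT⟩ ⟨x', hx', hxT'⟩
  by_contra hne
  have hdis : Disjoint ({x : IL f | x.1 i = y} ∩ T) ({x : IL f | x.1 i = y} ∩ T') := by
    rw [Set.disjoint_left]
    rintro z ⟨hz, hzT⟩ ⟨_, hzT'⟩
    exact hne ⟨z, hz, hzT, hzT'⟩
  obtain ⟨i0, hi0⟩ := separate hf (hcl.inter hT) (hcl.inter hT') hdis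
  have h1 := isPreconnected_closed_iff.1 (fibre_image hf hs hfib i i0 y)
    ((fun x : IL f => x.1 (i + i0)) '' ({x : IL f | x.1 i = y} ∩ T))
    ((fun x : IL f => x.1 (i + i0)) '' ({x : IL f | x.1 i = y} ∩ T'))
    (((hcl.inter hT).isCompact.image
      ((continuous_apply _).comp continuous_subtype_val)).isClosed)
    (((hcl.inter hT').isCompact.image
      ((continuous_apply _).comp continuous_subtype_val)).isClosed)
    (by
      rintro _ ⟨z, hz, rfl⟩
      rcases hsub hz with h | h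
      · exact Or.inl ⟨z, ⟨hz, h⟩, rfl⟩
      · exact Or.inr ⟨z, ⟨hz, h⟩, rfl⟩)
    ⟨_, ⟨x, hx, rfl⟩, ⟨x, ⟨hx, hxT⟩, rfl⟩⟩ ⟨_, ⟨x', hx', rfl⟩, ⟨x', ⟨hx', hxT'⟩, rfl⟩⟩
  obtain ⟨w, _, ⟨a, ha, haw⟩, ⟨b, hb, hbw⟩⟩ := h1
  exact hi0 (i + i0) (by omega) a ha b hb (haw.trans hbw.symm)

theorem exists_proj {X : Type} [TopologicalSpace X] (hf : ∀ k, Continuous (f k))
    (hs : ∀ k, Function.Surjective (f k)) (hfib : ∀ k y, IsPreconnected ((f k) ⁻¹' {y}))
    (e : X ≃ₜ IL f) {A B A' B' : Set X} (hA : IsClosed A) (hB : IsClosed B) (hAB : Disjoint A B)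
    (hA' : IsClosed A') (hB' : IsClosed B') (hAB' : Disjoint A' B') :
    ∃ i, ∃ p : X → Z i, Continuous p ∧ Function.Surjective p ∧
      (∀ y, IsPreconnected (p ⁻¹' {y})) ∧ (∀ a ∈ A, ∀ b ∈ B, p a ≠ p b) ∧
      (∀ a ∈ A', ∀ b ∈ B', p a ≠ p b) := by
  obtain ⟨i1, h1⟩ := separate hf (A := e '' A) (B := e '' B) (e.isClosedMap _ hA)
    (e.isClosedMap _ hB) ((Set.disjoint_image_iff e.injective).2 hAB)
  obtain ⟨i2, h2⟩ := separate hf (A := e '' A') (B := e '' B') (e.isClosedMap _ hA')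
    (e.isClosedMap _ hB') ((Set.disjoint_image_iff e.injective).2 hAB')
  refine ⟨max i1 i2, fun x => (e x).1 (max i1 i2), ?_, ?_, ?_, ?_, ?_⟩
  · exact (continuous_apply _).comp (continuous_subtype_val.comp e.continuous)
  · intro w
    obtain ⟨z, hz, hzw⟩ := seq_surj (max i1 i2) Z f hs w
    refine ⟨e.symm ⟨z, hz⟩, ?_⟩
    simpa using hzw
  · intro y
    have h3 := fibre_preconn hf hs hfib (max i1 i2) y
    have h4 : ((fun x => (e x).1 (max i1 i2)) ⁻¹' {y}) =
        e.symm '' {x : IL f | x.1 (max i1 i2) = y} := by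
      ext x
      constructor
      · intro hx
        exact ⟨e x, hx, by simp⟩
      · rintro ⟨z, hz, rfl⟩
        show (e (e.symm z)).1 _ = y
        rw [e.apply_symm_apply]; exact hz
    rw [h4]
    exact h3.image _ e.symm.continuous.continuousOn
  · intro a ha b hb
    exact h1 _ (le_max_left _ _) _ ⟨a, ha, rfl⟩ _ ⟨b, hb, rfl⟩
  · intro a ha b hb
    exact h2 _ (le_max_right _ _) _ ⟨a, ha, rfl⟩ _ ⟨b, hb, rfl⟩

end

end Pool.Agent.H333
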