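import Mathlib
import Pool.Agent.H333.Mono
import Pool.Agent.H333.Cplx
import Pool.Agent.H333.Dim
import Pool.Agent.H333.Arch

set_option autoImplicit false

namespace Pool.Agent.H333

open Set Topology Geometry

/-- dyadic points of the bottom arc -/
def DD : Set (ℝ × ℝ) := {p | p.2 = 0 ∧ ∃ (m : ℕ) (j : ℤ), p.1 = j / 2 ^ m}

theorem DD_countable : DD.Countable := by
  have : DD ⊆ Set.range (fun q : ℕ × ℤ => (((q.2 : ℝ) / 2 ^ q.1, (0:ℝ)) : ℝ × ℝ)) := by
    rintro p ⟨h1, m, j, h2⟩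
    exact ⟨(m, j), Prod.ext h2.symm h1.symm⟩
  exact (Set.countable_range _).mono this

theorem hh_pos_of {m : ℕ} {j : ℤ} {x : ℝ} (h1 : (j : ℝ) / 2 ^ m < x) (h2 : x < (j + 1) / 2 ^ m) :
    0 < hh m x := by
  rcases (hh_nonneg m x).lt_or_eq with h | h
  · exact h
  · exfalso
    obtain ⟨i, hi⟩ := (hh_eq_zero_iff m x).1 h.symm
    have h2m : (0:ℝ) < 2 ^ m := by positivity
    rw [hi, div_lt_div_iff_of_pos_right h2m] at h1
    rw [hi, div_lt_div_iff_of_pos_right h2m] at h2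
    have h3 : j < i := by exact_mod_cast h1
    have h4 : i < j + 1 := by exact_mod_cast h2
    omega

theorem exists_cell {m : ℕ} {x : ℝ} (h : 0 < hh m x) :
    ∃ j : ℤ, (j : ℝ) / 2 ^ m < x ∧ x < (j + 1) / 2 ^ m := by
  have h2m : (0:ℝ) < 2 ^ m := by positivity
  refine ⟨⌊x * 2 ^ m⌋, ?_, ?_⟩
  · rw [div_lt_iff₀ h2m]
    rcases (Int.floor_le (x * 2 ^ m)).lt_or_eq with h1 | h1
    · exact h1
    · exfalso
      have : hh m x = 0 := (hh_eq_zero_iff m x).2 ⟨⌊x * 2 ^ m⌋, by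
        rw [h1]; field_simp⟩
      linarith
  · rw [lt_div_iff₀ h2m]
    exact Int.lt_floor_add_one _

theorem level {m : ℕ} {p : ℝ × ℝ} (hp : p ∈ LL) (h1 : 3 / 4 * hh m p.1 < p.2)
    (h2 : p.2 < 3 / 2 * hh m p.1) : p.2 = hh m p.1 := by
  have hm0 := hh_nonneg m p.1
  rcases hp.2 with h | ⟨k, h⟩
  · linarith
  · rcases lt_trichotomy k m with hkm | hkm | hkm
    · have := hh_lt hkm p.1
      linarith
    · rw [← hkm]; exact h
    · have := hh_lt hkm p.1
      linarith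

theorem arch_absorb {F : Set (ℝ × ℝ)} (hF : IsPreconnected F) (hFX : F ⊆ XX)
    (hFS : ∀ p ∈ F, p ∉ SS) (hFD : ∀ p ∈ F, p ∉ DD) {m : ℕ} {x0 : ℝ} (hx0 : (x0, hh m x0) ∈ F)
    {j : ℤ} (hj1 : (j : ℝ) / 2 ^ m < x0) (hj2 : x0 < (j + 1) / 2 ^ m) :
    ∀ p ∈ F, (j : ℝ) / 2 ^ m < p.1 ∧ p.1 < (j + 1) / 2 ^ m ∧ p.2 = hh m p.1 := by
  have hFL : ∀ p ∈ F, p ∈ LL := by
    intro p hp
    rcases hFX hp with h | h
    · exact absurd h (hFS p hp)
    · exact h
  let U1 : Set (ℝ × ℝ) := {p | (j : ℝ) / 2 ^ m < p.1 ∧ p.1 < (j + 1) / 2 ^ m ∧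
    3 / 4 * hh m p.1 < p.2 ∧ p.2 < 3 / 2 * hh m p.1}
  have hc : Continuous fun p : ℝ × ℝ => hh m p.1 := (hh_cont m).comp continuous_fst
  have hU1 : IsOpen U1 := by
    refine (isOpen_lt continuous_const continuous_fst).inter ?_
    refine (isOpen_lt continuous_fst continuous_const).inter ?_
    exact (isOpen_lt (continuous_const.mul hc) continuous_snd).inter
      (isOpen_lt continuous_snd (continuous_const.mul hc))
  have hU2 : IsOpen (Gr m ((j : ℝ) / 2 ^ m) ((j + 1) / 2 ^ m))ᶜ :=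
    (Gr_compact _ _ _).isClosed.isOpen_compl
  have hend : ∀ i : ℤ, hh m ((i : ℝ) / 2 ^ m) = 0 := fun i => (hh_eq_zero_iff _ _).2 ⟨i, rfl⟩
  have hGr : ∀ p ∈ F, p ∈ Gr m ((j : ℝ) / 2 ^ m) ((j + 1) / 2 ^ m) →
      (j : ℝ) / 2 ^ m < p.1 ∧ p.1 < (j + 1) / 2 ^ m ∧ p.2 = hh m p.1 := by
    rintro p hp ⟨x, hx, rfl⟩
    refine ⟨?_, ?_, rfl⟩
    · rcases hx.1.lt_or_eq with h | h
      · exact h
      · exfalso
        apply hFD _ hp
        refine ⟨?_, m, j, h.symm⟩
        show hh m x = 0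
        rw [← h]; exact hend j
    · rcases hx.2.lt_or_eq with h | h
      · exact h
      · exfalso
        apply hFD _ hp
        refine ⟨?_, m, j + 1, ?_⟩
        · show hh m x = 0
          rw [h]
          have := hend (j + 1)
          push_cast at this
          exact this
        · show x = _
          rw [h]; push_cast; rfl
  have hsub : F ⊆ U1 ∪ (Gr m ((j : ℝ) / 2 ^ m) ((j + 1) / 2 ^ m))ᶜ := by
    intro p hp
    by_cases h : p ∈ Gr m ((j : ℝ) / 2 ^ m) ((j + 1) / 2 ^ m)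
    · left
      obtain ⟨h1, h2, h3⟩ := hGr p hp h
      have h4 := hh_pos_of h1 h2
      exact ⟨h1, h2, by rw [h3]; linarith, by rw [h3]; linarith⟩
    · exact Or.inr h
  have hx0U : (x0, hh m x0) ∈ U1 := by
    have h4 := hh_pos_of hj1 hj2
    refine ⟨hj1, hj2, ?_, ?_⟩
    · show 3 / 4 * hh m x0 < hh m x0
      linarith
    · show hh m x0 < 3 / 2 * hh m x0
      linarith
  intro p hp
  apply hGr p hp
  by_contra hcon
  obtain ⟨q, hqF, hq1, hq2⟩ := hF U1 _ hU1 hU2 hsub ⟨_, hx0, hx0U⟩ ⟨p, hp, hcon⟩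
  apply hq2
  obtain ⟨a1, a2, a3, a4⟩ := hq1
  have h5 := level (hFL q hqF) a3 a4
  exact ⟨q.1, ⟨a1.le, a2.le⟩, Prod.ext rfl h5.symm⟩

theorem exists_dyadic {a b : ℝ} (hab : a < b) : ∃ (m : ℕ) (j : ℤ), a < (j : ℝ) / 2 ^ m ∧
    (j : ℝ) / 2 ^ m < b := by
  obtain ⟨m, hm⟩ := exists_pow_lt_of_lt_one (sub_pos.2 hab) (by norm_num : (1:ℝ) / 2 < 1)
  have h2m : (0:ℝ) < 2 ^ m := by positivity
  refine ⟨m, ⌊a * 2 ^ m⌋ + 1, ?_, ?_⟩
  · rw [lt_div_iff₀ h2m]
    push_cast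
    exact Int.lt_floor_add_one _
  · rw [div_lt_iff₀ h2m]
    push_cast
    have h1 := Int.floor_le (a * 2 ^ m)
    have h2 : 1 < (b - a) * 2 ^ m := by
      rw [one_div_pow, div_lt_iff₀ h2m] at hm
      exact hm
    linarith

theorem E0_single {F : Set (ℝ × ℝ)} (hF : IsPreconnected F) (hFX : F ⊆ XX)
    (hFS : ∀ p ∈ F, p ∉ SS) (hFD : ∀ p ∈ F, p ∉ DD) {z : ℝ} (hz : (z, (0:ℝ)) ∈ F) :
    ∀ p ∈ F, p = (z, 0) := by
  have hFL : ∀ p ∈ F, p ∈ LL := by
    intro p hp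
    rcases hFX hp with h | h
    · exact absurd h (hFS p hp)
    · exact h
  have h0 : ∀ p ∈ F, p.2 = 0 := by
    intro p hp
    rcases (hFL p hp).2 with h | ⟨m, h⟩
    · exact h
    · rcases (hh_nonneg m p.1).lt_or_eq with h1 | h1
      · exfalso
        obtain ⟨j, hj1, hj2⟩ := exists_cell h1
        have hmem : (p.1, hh m p.1) ∈ F := by rw [← h]; exact hp
        obtain ⟨a1, a2, a3⟩ := arch_absorb hF hFX hFS hFD hmem hj1 hj2 _ hz
        have := hh_pos_of a1 a2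
        simp only at a3 this
        linarith
      · rw [h, ← h1]
  have hF1 : IsPreconnected (Prod.fst '' F) := hF.image _ continuous_fst.continuousOn
  have hord := hF1.ordConnected
  have key : ∀ p ∈ F, ∀ q ∈ F, ¬ p.1 < q.1 := by
    intro p hp q hq hlt
    obtain ⟨m, j, h1, h2⟩ := exists_dyadic hlt
    obtain ⟨w, hw, hw1⟩ := hord.out ⟨p, hp, rfl⟩ ⟨q, hq, rfl⟩ ⟨h1.le, h2.le⟩
    exact hFD w hw ⟨h0 w hw, m, j, hw1⟩
  intro p hp
  have h1 := key p hp _ hz
  have h2 := key _ hz p hp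
  simp only at h1 h2
  exact Prod.ext (le_antisymm (not_lt.1 h2) (not_lt.1 h1)) (h0 p hp)

theorem uncountable_conn {Y : Type*} [MetricSpace Y] {C : Set Y} (hC : IsPreconnected C)
    {y1 y2 : Y} (h1 : y1 ∈ C) (h2 : y2 ∈ C) (h12 : y1 ≠ y2) {Q : Set Y} (hQ : Q.Countable) :
    ∃ t ∈ C, t ∉ Q := by
  by_contra hcon
  push Not at hcon
  have hCc : C.Countable := hQ.mono hcon
  have h3 : ((fun y => dist y y1) '' C).Countable := hCc.image _
  have h4 : IsPreconnected ((fun y => dist y y1) '' C) :=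
    hC.image _ (by fun_prop)
  have h5 : Icc 0 (dist y2 y1) ⊆ (fun y => dist y y1) '' C :=
    h4.ordConnected.out ⟨y1, h1, dist_self _⟩ ⟨y2, h2, rfl⟩
  have h6 := h3.mono h5
  have h7 : 0 < dist y2 y1 := dist_pos.2 h12.symm
  have h8 := Cardinal.mk_Icc_real h7
  have h9 : Cardinal.mk (Icc (0:ℝ) (dist y2 y1)) ≤ Cardinal.aleph0 :=
    Cardinal.le_aleph0_iff_set_countable.2 h6
  rw [h8] at h9
  exact absurd h9 (not_le.2 Cardinal.aleph0_lt_continuum)

/-- tube lemma for closed maps -/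
theorem tube {X Y : Type*} [TopologicalSpace X] [TopologicalSpace Y] {p : X → Y}
    (hp : IsClosedMap p) {t : Y} {W : Set X} (hW : IsOpen W) (h : p ⁻¹' {t} ⊆ W) :
    ∃ N : Set Y, IsOpen N ∧ t ∈ N ∧ p ⁻¹' N ⊆ W := by
  refine ⟨(p '' Wᶜ)ᶜ, (hp _ hW.isClosed_compl).isOpen_compl, ?_, ?_⟩
  · rintro ⟨x, hx, hxt⟩
    exact hx (h hxt)
  · intro x hx
    by_contra hcon
    exact hx ⟨x, hcon, rfl⟩

/-- bottom arc -/
noncomputable def e0 (x : ℝ) : XX := ⟨(cl x, 0), Or.inr ⟨cl_mem x, Or.inl rfl⟩⟩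

/-- arches -/
noncomputable def ga (k : ℕ) (x : ℝ) : XX :=
  ⟨(cl x, hh k (cl x)), Or.inr ⟨cl_mem x, Or.inr ⟨k, rfl⟩⟩⟩

theorem e0_cont : Continuous e0 := by
  apply Continuous.subtype_mk
  exact cl_cont.prodMk continuous_const

theorem ga_cont (k : ℕ) : Continuous (ga k) := by
  apply Continuous.subtype_mk
  exact cl_cont.prodMk ((hh_cont k).comp cl_cont)

theorem e0_val {x : ℝ} (hx : x ∈ Icc (0:ℝ) 1) : (e0 x).1 = (x, 0) := by
  show (cl x, (0:ℝ)) = (x, 0)
  rw [cl_of_mem hx]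

theorem ga_val {k : ℕ} {x : ℝ} (hx : x ∈ Icc (0:ℝ) 1) : (ga k x).1 = (x, hh k x) := by
  show (cl x, hh k (cl x)) = (x, hh k x)
  rw [cl_of_mem hx]

theorem hh_dyadic {m k : ℕ} (hmk : m ≤ k) (j : ℤ) : hh k ((j : ℝ) / 2 ^ m) = 0 := by
  apply le_antisymm _ (hh_nonneg _ _)
  have := (hh_eq_zero_iff m ((j:ℝ) / 2 ^ m)).2 ⟨j, rfl⟩
  rw [← this]
  exact hh_anti hmk _

theorem Bl_punct (m : ℕ) (j : ℤ) (z : ℝ) (h1 : (j : ℝ) / 2 ^ m < z) (h2 : z < (j + 1) / 2 ^ m)
    (hz : ∀ k, 0 < hh k z) :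
    IsPreconnected (Bl m ((j : ℝ) / 2 ^ m) ((j + 1) / 2 ^ m) \ {(z, (0:ℝ))}) := by
  set l : ℝ := (j : ℝ) / 2 ^ m with hl
  set r : ℝ := ((j : ℝ) + 1) / 2 ^ m with hr
  have hlr : l ≤ r := by linarith
  have hl0 : ∀ k, m ≤ k → hh k l = 0 := fun k hk => hh_dyadic hk j
  have hr0 : ∀ k, m ≤ k → hh k r = 0 := fun k hk => by
    have := hh_dyadic hk (j + 1)
    push_cast at this
    exact this
  have hlG : ∀ k, m ≤ k → (l, (0:ℝ)) ∈ Gr k l r := fun k hk =>
    ⟨l, ⟨le_rfl, hlr⟩, by show (l, hh k l) = _; rw [hl0 k hk]⟩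
  have hrG : ∀ k, m ≤ k → (r, (0:ℝ)) ∈ Gr k l r := fun k hk =>
    ⟨r, ⟨hlr, le_rfl⟩, by show (r, hh k r) = _; rw [hr0 k hk]⟩
  have hlin : ∀ I : Set ℝ, IsPreconnected I → IsPreconnected ((fun x => (x, (0:ℝ))) '' I) :=
    fun I hI => hI.image _ (continuous_id.prodMk continuous_const).continuousOn
  have heq : Bl m l r \ {(z, (0:ℝ))} = ⋃₀ ({Gr m l r ∪ (fun x => (x, (0:ℝ))) '' Ico l z} ∪
      ({Gr m l r ∪ (fun x => (x, (0:ℝ))) '' Ioc z r} ∪
      {S | ∃ k, m ≤ k ∧ S = Gr m l r ∪ Gr k l r})) := by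
    ext p
    constructor
    · rintro ⟨⟨hp1, hp2⟩, hpz⟩
      rcases hp2 with hp2 | ⟨k, hk, hp2⟩
      · have hne : p.1 ≠ z := by
          intro h
          exact hpz (Prod.ext h hp2)
        rcases lt_or_gt_of_ne hne with h | h
        · exact ⟨_, Or.inl rfl, Or.inr ⟨p.1, ⟨hp1.1, h⟩, Prod.ext rfl hp2.symm⟩⟩
        · exact ⟨_, Or.inr (Or.inl rfl), Or.inr ⟨p.1, ⟨h, hp1.2⟩, Prod.ext rfl hp2.symm⟩⟩
      · exact ⟨_, Or.inr (Or.inr ⟨k, hk, rfl⟩), Or.inr ⟨p.1, hp1, Prod.ext rfl hp2.symm⟩⟩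
    · have hG : ∀ k, m ≤ k → ∀ p ∈ Gr k l r, p ∈ Bl m l r \ {(z, (0:ℝ))} := by
        rintro k hk _ ⟨x, hx, rfl⟩
        refine ⟨⟨hx, Or.inr ⟨k, hk, rfl⟩⟩, ?_⟩
        intro h
        have h3 : x = z := congrArg Prod.fst h
        have h4 : hh k x = 0 := congrArg Prod.snd h
        have := hz k
        rw [h3] at h4
        linarith
      rintro ⟨S, hS | hS | ⟨k, hk, hS⟩, hp⟩
      · have hS' : S = Gr m l r ∪ (fun x => (x, (0:ℝ))) '' Ico l z := hS
        rw [hS'] at hp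
        rcases hp with hp | ⟨x, hx, rfl⟩
        · exact hG m le_rfl p hp
        · refine ⟨⟨⟨hx.1, by linarith [hx.2]⟩, Or.inl rfl⟩, ?_⟩
          intro h
          have h3 : x = z := congrArg Prod.fst h
          have := hx.2
          linarith
      · have hS' : S = Gr m l r ∪ (fun x => (x, (0:ℝ))) '' Ioc z r := hS
        rw [hS'] at hp
        rcases hp with hp | ⟨x, hx, rfl⟩
        · exact hG m le_rfl p hp
        · refine ⟨⟨⟨by linarith [hx.1], hx.2⟩, Or.inl rfl⟩, ?_⟩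
          intro h
          have h3 : x = z := congrArg Prod.fst h
          have := hx.1
          linarith
      · rw [hS] at hp
        rcases hp with hp | hp
        · exact hG m le_rfl p hp
        · exact hG k hk p hp
  rw [heq]
  apply isPreconnected_sUnion (l, 0)
  · rintro S (hS | hS | ⟨k, hk, hS⟩)
    · have hS' : S = Gr m l r ∪ (fun x => (x, (0:ℝ))) '' Ico l z := hS
      rw [hS']; exact Or.inl (hlG m le_rfl)
    · have hS' : S = Gr m l r ∪ (fun x => (x, (0:ℝ))) '' Ioc z r := hS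
      rw [hS']; exact Or.inl (hlG m le_rfl)
    · rw [hS]; exact Or.inl (hlG m le_rfl)
  · rintro S (hS | hS | ⟨k, hk, hS⟩)
    · have hS' : S = Gr m l r ∪ (fun x => (x, (0:ℝ))) '' Ico l z := hS
      rw [hS']
      exact (Gr_preconn m l r).union (l, 0) (hlG m le_rfl) ⟨l, ⟨le_rfl, h1⟩, rfl⟩
        (hlin _ isPreconnected_Ico)
    · have hS' : S = Gr m l r ∪ (fun x => (x, (0:ℝ))) '' Ioc z r := hS
      rw [hS']
      exact (Gr_preconn m l r).union (r, 0) (hrG m le_rfl) ⟨r, ⟨h2, le_rfl⟩, rfl⟩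
        (hlin _ isPreconnected_Ioc)
    · rw [hS]
      exact (Gr_preconn m l r).union (l, 0) (hlG m le_rfl) (hlG k hk) (Gr_preconn k l r)

theorem arch_main {E : Type} [NormedAddCommGroup E] [InnerProductSpace ℝ E]
    (K : SimplicialComplex ℝ E) (hfin : K.faces.Finite) (p : XX → K.space) (hp : Continuous p)
    (hs : Function.Surjective p) (hfib : ∀ y, IsPreconnected (p ⁻¹' {y}))
    (h1 : ∀ x ∈ Icc (1 / 2 : ℝ) 1, ∀ b : XX, b.1 ∈ SS → p (e0 x) ≠ p b)
    (h2 : p (e0 (1 / 2)) ≠ p (e0 1)) : False := by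
  have hXc : CompactSpace XX := isCompact_iff_compactSpace.1 XX_compact
  have hcl : IsClosedMap p := hp.isClosedMap
  -- the countable exceptional set
  let Q : Set K.space := p '' (Subtype.val ⁻¹' DD) ∪ {y | y.1 ∈ K.vertices}
  have hQ : Q.Countable := by
    apply Set.Countable.union
    · exact (DD_countable.preimage Subtype.val_injective).image _
    · have : {y : K.space | y.1 ∈ K.vertices} = (fun y : K.space => ({y.1} : Finset E)) ⁻¹' K.faces :=
        rfl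
      rw [this]
      exact (hfin.preimage (fun a _ b _ hab => Subtype.ext (Finset.singleton_injective hab))).countable
  have hnoD : ∀ y ∉ Q, ∀ w, p w = y → w.1 ∉ DD := by
    intro y hy w hw hD
    exact hy (Or.inl ⟨w, hD, hw⟩)
  have hnov : ∀ y ∉ Q, y.1 ∉ K.vertices := fun y hy h => hy (Or.inr h)
  have hfibE : ∀ y, IsPreconnected (Subtype.val '' (p ⁻¹' {y})) := fun y =>
    (hfib y).image _ continuous_subtype_val.continuousOn
  -- choose t
  obtain ⟨t, ⟨z, hz, hzt⟩, htQ⟩ := uncountable_conn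
    (C := (fun x => p (e0 x)) '' Icc (1 / 2 : ℝ) 1)
    (isPreconnected_Icc.image _ (hp.comp e0_cont).continuousOn)
    ⟨1 / 2, by norm_num, rfl⟩ ⟨1, by norm_num, rfl⟩ h2 hQ
  simp only at hzt
  have hz01 : z ∈ Icc (0:ℝ) 1 := ⟨by linarith [hz.1], hz.2⟩
  have hznd : ∀ (m : ℕ) (j : ℤ), z ≠ j / 2 ^ m := by
    intro m j h
    apply hnoD t htQ (e0 z) hzt
    rw [e0_val hz01]
    exact ⟨rfl, m, j, h⟩
  have hzpos : ∀ k, 0 < hh k z := by
    intro k
    rcases (hh_nonneg k z).lt_or_eq with h | h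
    · exact h
    · exfalso
      obtain ⟨j, hj⟩ := (hh_eq_zero_iff k z).1 h.symm
      exact hznd k j hj
  have hft : ∀ w, p w = t → w = e0 z := by
    intro w hw
    have := E0_single (hfibE t) (by rintro _ ⟨w, _, rfl⟩; exact w.2)
      (by
        rintro _ ⟨w, hw, rfl⟩ hS
        exact h1 z hz w hS (hzt.trans (show p w = t from hw).symm))
      (by
        rintro _ ⟨w, hw, rfl⟩
        exact hnoD t htQ w hw)
      (z := z) ⟨e0 z, hzt, e0_val hz01⟩ w.1 ⟨w, hw, rfl⟩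
    apply Subtype.ext
    rw [this, e0_val hz01]
  -- the cells around z
  have h2p : ∀ m : ℕ, (0:ℝ) < 2 ^ m := fun m => by positivity
  let J : ℕ → ℤ := fun m => ⌊z * 2 ^ m⌋
  have hJl : ∀ m, (J m : ℝ) / 2 ^ m < z := by
    intro m
    rw [div_lt_iff₀ (h2p m)]
    rcases (Int.floor_le (z * 2 ^ m)).lt_or_eq with h | h
    · exact h
    · exfalso
      apply hznd m (J m)
      rw [eq_div_iff (h2p m).ne']
      exact h.symm
  have hJr : ∀ m, z < ((J m : ℝ) + 1) / 2 ^ m := by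
    intro m
    rw [lt_div_iff₀ (h2p m)]
    exact Int.lt_floor_add_one _
  have hz1 : z < 1 := by
    rcases hz.2.lt_or_eq with h | h
    · exact h
    · exact absurd h (by have := hznd 0 1; simpa using this)
  have hl0 : ∀ m, 0 ≤ (J m : ℝ) / 2 ^ m := by
    intro m
    have : 0 ≤ J m := Int.floor_nonneg.2 (by have := hz01.1; positivity)
    have h3 : (0:ℝ) ≤ J m := by exact_mod_cast this
    positivity
  have hr1 : ∀ m, ((J m : ℝ) + 1) / 2 ^ m ≤ 1 := by
    intro m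
    rw [div_le_one (h2p m)]
    have h3 : (J m : ℝ) < 2 ^ m := by
      have := Int.floor_le (z * 2 ^ m)
      have h4 : z * 2 ^ m < 2 ^ m := by nlinarith [h2p m]
      exact lt_of_le_of_lt this h4
    have h4 : J m < 2 ^ m := by exact_mod_cast h3
    have h5 : J m + 1 ≤ 2 ^ m := h4
    exact_mod_cast h5
  let l : ℕ → ℝ := fun m => (J m : ℝ) / 2 ^ m
  let r : ℕ → ℝ := fun m => ((J m : ℝ) + 1) / 2 ^ m
  have hlr : ∀ m, r m = l m + 1 / 2 ^ m := by
    intro m
    show ((J m : ℝ) + 1) / 2 ^ m = (J m : ℝ) / 2 ^ m + 1 / 2 ^ m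
    ring
  let W : ℕ → Set XX := fun m => Subtype.val ⁻¹' (Bl m (l m) (r m))
  have hnotSS : ∀ (x : XX), 0 < x.1.1 → x.1 ∈ LL := by
    intro x hx
    rcases x.2 with h | h
    · exfalso
      have : x.1.1 ≤ 0 := h.1.2
      linarith
    · exact h
  have hWn : ∀ m, ∃ O : Set XX, IsOpen O ∧ e0 z ∈ O ∧ O ⊆ W m := by
    intro m
    have hc : Continuous fun w : XX => hh m w.1.1 :=
      (hh_cont m).comp (continuous_fst.comp continuous_subtype_val)
    have hc1 : Continuous fun w : XX => w.1.1 := continuous_fst.comp continuous_subtype_val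
    have hc2 : Continuous fun w : XX => w.1.2 := continuous_snd.comp continuous_subtype_val
    refine ⟨{w | l m < w.1.1 ∧ w.1.1 < r m ∧ w.1.2 < 3 / 2 * hh m w.1.1}, ?_, ?_, ?_⟩
    · exact (isOpen_lt continuous_const hc1).inter ((isOpen_lt hc1 continuous_const).inter
        (isOpen_lt hc2 (continuous_const.mul hc)))
    · have e := e0_val hz01
      refine ⟨?_, ?_, ?_⟩
      · rw [e]; exact hJl m
      · rw [e]; exact hJr m
      · rw [e]
        have := hzpos m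
        show (0:ℝ) < 3 / 2 * hh m z
        linarith
    · rintro w ⟨a1, a2, a3⟩
      refine ⟨⟨a1.le, a2.le⟩, ?_⟩
      have hw : w.1 ∈ LL := hnotSS w (lt_of_le_of_lt (hl0 m) a1)
      have hpos := hh_pos_of a1 a2
      rcases hw.2 with h | ⟨k, h⟩
      · exact Or.inl h
      · right
        refine ⟨k, ?_, h⟩
        by_contra hkm
        push Not at hkm
        have := hh_lt hkm w.1.1
        linarith
  have hWs : ∀ m, ∀ w ∈ W m, dist w (e0 z) ≤ 1 / 2 ^ m := by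
    rintro m w ⟨a1, a2⟩
    rw [Subtype.dist_eq, e0_val hz01, Prod.dist_eq]
    have b1 := hJl m
    have b2 := hJr m
    have b3 := hlr m
    have b4 : 0 ≤ w.1.2 ∧ w.1.2 ≤ 1 / 2 ^ m := by
      rcases a2 with h | ⟨k, hk, h⟩
      · rw [h]; exact ⟨le_rfl, by positivity⟩
      · rw [h]
        refine ⟨hh_nonneg _ _, ((hh_anti hk _).trans (hh_le m _)).trans ?_⟩
        apply one_div_le_one_div_of_le (by positivity)
        exact pow_le_pow_left₀ (by norm_num) (by norm_num) m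
    have a11 : l m ≤ w.1.1 := a1.1
    have a12 : w.1.1 ≤ r m := a1.2
    have b1' : l m < z := b1
    have b2' : z < r m := b2
    apply max_le
    · rw [Real.dist_eq, abs_le]
      constructor <;> linarith
    · rw [Real.dist_eq, abs_le]
      constructor <;> simp only [sub_zero] <;> linarith [b4.1, b4.2]
  have hWsmall : ∀ U : Set XX, IsOpen U → e0 z ∈ U → ∃ m0, ∀ m, m0 ≤ m → W m ⊆ U := by
    intro U hU hzU
    obtain ⟨ε, hε, hb⟩ := Metric.isOpen_iff.1 hU _ hzU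
    obtain ⟨N, hN⟩ := exists_pow_lt_of_lt_one hε (by norm_num : (1:ℝ) / 2 < 1)
    refine ⟨N, fun m hm w hw => hb ?_⟩
    rw [Metric.mem_ball]
    have c1 := hWs m w hw
    have c2 : (1:ℝ) / 2 ^ m ≤ 1 / 2 ^ N := by
      apply one_div_le_one_div_of_le (by positivity)
      exact pow_le_pow_right₀ (by norm_num) hm
    rw [one_div_pow] at hN
    linarith
  have hWp : ∀ m, IsPreconnected (W m \ {e0 z}) := by
    intro m
    rw [← Topology.IsInducing.subtypeVal.isPreconnected_image]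
    have : Subtype.val '' (W m \ {e0 z}) = Bl m (l m) (r m) \ {(z, (0:ℝ))} := by
      ext q
      constructor
      · rintro ⟨w, ⟨hw1, hw2⟩, rfl⟩
        refine ⟨hw1, ?_⟩
        intro h
        apply hw2
        apply Subtype.ext
        rw [e0_val hz01]; exact h
      · rintro ⟨hq1, hq2⟩
        have hqX : q ∈ XX := by
          right
          refine ⟨⟨(hl0 m).trans hq1.1.1, hq1.1.2.trans (hr1 m)⟩, ?_⟩
          rcases hq1.2 with h | ⟨k, _, h⟩
          · exact Or.inl h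
          · exact Or.inr ⟨k, h⟩
        refine ⟨⟨q, hqX⟩, ⟨hq1, ?_⟩, rfl⟩
        intro h
        apply hq2
        have := congrArg Subtype.val h
        rw [e0_val hz01] at this
        exact this
    rw [this]
    exact Bl_punct m (J m) z (hJl m) (hJr m) hzpos
  -- Step 1: t is thick
  have hthick : t.1 ∈ Thick K := by
    by_contra hthin
    obtain ⟨φ, hφc, hφt, ⟨r0, hr0, hφ0⟩, hφn, hφp⟩ := sep_of_thin K hfin t (hnov t htQ) hthin
    have hU : IsOpen (p ⁻¹' Metric.ball t r0) := Metric.isOpen_ball.preimage hp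
    obtain ⟨m, hm⟩ := hWsmall _ hU (by
      show p (e0 z) ∈ Metric.ball t r0
      rw [hzt]; exact Metric.mem_ball_self hr0)
    have hm := hm m le_rfl
    obtain ⟨O, hO, hzO, hOW⟩ := hWn m
    obtain ⟨N, hN, htN, hNO⟩ := tube hcl hO (t := t) (by
      intro w hw
      rw [hft w hw]; exact hzO)
    obtain ⟨ε, hε, hεN⟩ := Metric.isOpen_iff.1 hN t htN
    obtain ⟨y1, hy1, hy1'⟩ := hφn ε hε
    obtain ⟨y2, hy2, hy2'⟩ := hφp ε hε
    obtain ⟨w1, rfl⟩ := hs y1
    obtain ⟨w2, rfl⟩ := hs y2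
    have hw1 : w1 ∈ W m \ {e0 z} := by
      refine ⟨hOW (hNO (hεN hy1)), ?_⟩
      rintro rfl
      rw [hzt, hφt] at hy1'
      exact lt_irrefl _ hy1'
    have hw2 : w2 ∈ W m \ {e0 z} := by
      refine ⟨hOW (hNO (hεN hy2)), ?_⟩
      rintro rfl
      rw [hzt, hφt] at hy2'
      exact lt_irrefl _ hy2'
    have hpre : IsPreconnected ((fun w => φ (p w)) '' (W m \ {e0 z})) :=
      (hWp m).image _ (hφc.comp hp).continuousOn
    obtain ⟨w, hw, hw0⟩ := hpre.ordConnected.out ⟨w1, hw1, rfl⟩ ⟨w2, hw2, rfl⟩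
      (show (0:ℝ) ∈ Icc _ _ from ⟨hy1'.le, hy2'.le⟩)
    have h3 := hφ0 (p w) (hm hw.1) hw0
    exact hw.2 (hft w h3)
  -- Step 2
  obtain ⟨r1, hr1', hthn⟩ := thick_nhds K hfin t (hnov t htQ) hthick
  have hSScl : IsClosed (p '' (Subtype.val ⁻¹' SS)) :=
    hcl _ (SS_compact.isClosed.preimage continuous_subtype_val)
  have htSS : t ∉ p '' (Subtype.val ⁻¹' SS) := by
    rintro ⟨w, hw, hwt⟩
    exact h1 z hz w hw (hzt.trans hwt.symm)
  obtain ⟨r2, hr2, hr2'⟩ := Metric.isOpen_iff.1 hSScl.isOpen_compl t htSS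
  obtain ⟨m, hm⟩ := hWsmall (p ⁻¹' (Metric.ball t r1 ∩ Metric.ball t r2))
    ((Metric.isOpen_ball.inter Metric.isOpen_ball).preimage hp) (by
      show p (e0 z) ∈ Metric.ball t r1 ∩ Metric.ball t r2
      rw [hzt]; exact ⟨Metric.mem_ball_self hr1', Metric.mem_ball_self hr2⟩)
  have hlmem : ∀ k, l k ∈ Icc (0:ℝ) 1 := fun k => ⟨hl0 k, by
    have := hJl k
    have h3 : l k < z := this
    linarith⟩
  have hrmem : ∀ k, r k ∈ Icc (0:ℝ) 1 := fun k => ⟨by
    have := hJr k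
    have h3 : z < r k := this
    linarith [hz01.1], hr1 k⟩
  obtain ⟨k, hmk, hk⟩ : ∃ k, m ≤ k ∧ p (e0 (l k)) ≠ p (e0 (r k)) := by
    by_contra hcon
    push Not at hcon
    have hstep : ∀ k, m ≤ k → p (e0 (l (k + 1))) = p (e0 (l k)) := by
      intro k hk
      have c1 := hcon k hk
      have c2 := hcon (k + 1) (by omega)
      have hJJ : J (k + 1) = 2 * J k ∨ J (k + 1) = 2 * J k + 1 := by
        have d1 := Int.floor_le (z * 2 ^ k)
        have d2 := Int.lt_floor_add_one (z * 2 ^ k)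
        have d3 := Int.floor_le (z * 2 ^ (k + 1))
        have d4 := Int.lt_floor_add_one (z * 2 ^ (k + 1))
        have d5 : z * 2 ^ (k + 1) = 2 * (z * 2 ^ k) := by ring
        rw [d5] at d3 d4
        have d6 : ((J (k + 1) : ℤ) : ℝ) < ((2 * J k + 2 : ℤ) : ℝ) := by
          push_cast
          show ((⌊z * 2 ^ (k + 1)⌋ : ℤ) : ℝ) < 2 * ((⌊z * 2 ^ k⌋ : ℤ) : ℝ) + 2
          rw [d5]; linarith
        have d7 : ((2 * J k : ℤ) : ℝ) < ((J (k + 1) + 1 : ℤ) : ℝ) := by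
          push_cast
          show 2 * ((⌊z * 2 ^ k⌋ : ℤ) : ℝ) < ((⌊z * 2 ^ (k + 1)⌋ : ℤ) : ℝ) + 1
          rw [d5]; linarith
        have d8 : J (k + 1) < 2 * J k + 2 := by exact_mod_cast d6
        have d9 : 2 * J k < J (k + 1) + 1 := by exact_mod_cast d7
        omega
      rcases hJJ with h | h
      · have : l (k + 1) = l k := by
          show ((J (k + 1) : ℤ) : ℝ) / 2 ^ (k + 1) = (J k : ℝ) / 2 ^ k
          rw [h]; push_cast; rw [pow_succ]; field_simp
        rw [this]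
      · have : r (k + 1) = r k := by
          show (((J (k + 1) : ℤ) : ℝ) + 1) / 2 ^ (k + 1) = ((J k : ℝ) + 1) / 2 ^ k
          rw [h]; push_cast; rw [pow_succ]; field_simp; ring
        rw [c2, this, ← c1]
    have hconst : ∀ k, m ≤ k → p (e0 (l k)) = p (e0 (l m)) := by
      intro k hk
      induction k, hk using Nat.le_induction with
      | base => rfl
      | succ k hk ih => rw [hstep k hk, ih]
    have hlim : Filter.Tendsto l Filter.atTop (𝓝 z) := by
      have e1 : Filter.Tendsto (fun n : ℕ => z - ((1:ℝ) / 2) ^ n) Filter.atTop (𝓝 (z - 0)) :=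
        tendsto_const_nhds.sub
          (tendsto_pow_atTop_nhds_zero_of_lt_one (by norm_num) (by norm_num))
      rw [sub_zero] at e1
      apply tendsto_of_tendsto_of_tendsto_of_le_of_le e1 tendsto_const_nhds
      · intro n
        have a1 := hJr n
        have a2 := hlr n
        have a3 : z < r n := a1
        show z - (1 / 2) ^ n ≤ l n
        rw [one_div_pow]
        linarith
      · intro n
        exact (hJl n).le
    have hlim2 : Filter.Tendsto (fun k => p (e0 (l k))) Filter.atTop (𝓝 (p (e0 z))) :=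
      ((hp.comp e0_cont).tendsto z).comp hlim
    have hlim3 : Filter.Tendsto (fun k => p (e0 (l k))) Filter.atTop (𝓝 (p (e0 (l m)))) := by
      apply tendsto_const_nhds.congr'
      filter_upwards [Filter.eventually_ge_atTop m] with k hk
      exact (hconst k hk).symm
    have h4 := tendsto_nhds_unique hlim3 hlim2
    rw [hzt] at h4
    have h5 := congrArg Subtype.val (hft _ h4)
    rw [e0_val (hlmem m), e0_val hz01] at h5
    have h6 : l m = z := congrArg Prod.fst h5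
    have h7 : l m < z := hJl m
    linarith
  have hWk := hm k hmk
  have hgl : ga k (l k) = e0 (l k) := by
    apply Subtype.ext
    rw [ga_val (hlmem k), e0_val (hlmem k)]
    rw [show hh k (l k) = 0 from hh_dyadic le_rfl _]
  have hgr : ga k (r k) = e0 (r k) := by
    apply Subtype.ext
    rw [ga_val (hrmem k), e0_val (hrmem k)]
    have := hh_dyadic (le_refl k) (J k + 1)
    push_cast at this
    rw [show hh k (r k) = 0 from this]
  have hlk : l k < z := hJl k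
  have hrk : z < r k := hJr k
  obtain ⟨s, ⟨x0, hx0, hx0s⟩, hsQ⟩ := uncountable_conn
    (C := (fun x => p (ga k x)) '' Icc (l k) (r k))
    (isPreconnected_Icc.image _ (hp.comp (ga_cont k)).continuousOn)
    ⟨l k, ⟨le_rfl, by linarith⟩, by show p (ga k (l k)) = _; rw [hgl]⟩
    ⟨r k, ⟨by linarith, le_rfl⟩, by show p (ga k (r k)) = _; rw [hgr]⟩ hk hQ
  simp only at hx0s
  have hx01 : ∀ x ∈ Icc (l k) (r k), x ∈ Icc (0:ℝ) 1 := fun x hx =>
    ⟨(hl0 k).trans hx.1, hx.2.trans (hr1 k)⟩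
  have hgW : ga k x0 ∈ W k := by
    show (ga k x0).1 ∈ Bl k (l k) (r k)
    rw [ga_val (hx01 x0 hx0)]
    exact ⟨hx0, Or.inr ⟨k, le_rfl, rfl⟩⟩
  have hsball := hWk hgW
  have hsball1 : dist s t < r1 := by
    have := hsball.1
    rw [hx0s] at this
    exact this
  have hsball2 : s ∈ Metric.ball t r2 := by
    have := hsball.2
    rw [hx0s] at this
    exact this
  have hx0l : l k < x0 := by
    rcases hx0.1.lt_or_eq with h | h
    · exact h
    · exfalso
      apply hnoD s hsQ (ga k x0) hx0s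
      rw [← h, hgl, e0_val (hlmem k)]
      exact ⟨rfl, k, J k, rfl⟩
  have hx0r : x0 < r k := by
    rcases hx0.2.lt_or_eq with h | h
    · exact h
    · exfalso
      apply hnoD s hsQ (ga k x0) hx0s
      rw [h, hgr, e0_val (hrmem k)]
      refine ⟨rfl, k, J k + 1, ?_⟩
      show r k = _
      push_cast; rfl
  -- the fibre over s lies in the arch
  have hfs : ∀ w, p w = s → l k < w.1.1 ∧ w.1.1 < r k ∧ w.1.2 = hh k w.1.1 := by
    intro w hw
    refine arch_absorb (hfibE s) (by rintro _ ⟨w, _, rfl⟩; exact w.2)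
      (by
        rintro _ ⟨w, hw, rfl⟩ hS
        exact hr2' hsball2 ⟨w, hS, hw⟩)
      (by
        rintro _ ⟨w, hw, rfl⟩
        exact hnoD s hsQ w hw)
      (m := k) (x0 := x0) ⟨ga k x0, hx0s, ga_val (hx01 x0 hx0)⟩ hx0l hx0r w.1 ⟨w, hw, rfl⟩
  have hck : Continuous fun w : XX => hh k w.1.1 :=
    (hh_cont k).comp (continuous_fst.comp continuous_subtype_val)
  have hc1 : Continuous fun w : XX => w.1.1 := continuous_fst.comp continuous_subtype_val
  have hc2 : Continuous fun w : XX => w.1.2 := continuous_snd.comp continuous_subtype_val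
  let A : Set XX := {w | l k < w.1.1 ∧ w.1.1 < r k ∧ 3 / 4 * hh k w.1.1 < w.1.2 ∧
    w.1.2 < 3 / 2 * hh k w.1.1}
  have hAo : IsOpen A := by
    exact (isOpen_lt continuous_const hc1).inter ((isOpen_lt hc1 continuous_const).inter
      ((isOpen_lt (continuous_const.mul hck) hc2).inter
        (isOpen_lt hc2 (continuous_const.mul hck))))
  have hAlev : ∀ w ∈ A, w.1.2 = hh k w.1.1 := by
    rintro w ⟨a1, a2, a3, a4⟩
    exact level (hnotSS w (lt_of_le_of_lt (hl0 k) a1)) a3 a4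
  have hfA : p ⁻¹' {s} ⊆ A := by
    intro w hw
    obtain ⟨a1, a2, a3⟩ := hfs w hw
    have := hh_pos_of a1 a2
    exact ⟨a1, a2, by rw [a3]; linarith, by rw [a3]; linarith⟩
  obtain ⟨N, hN, hsN, hNA⟩ := tube hcl hAo hfA
  obtain ⟨ε1, hε1, hε1N⟩ := Metric.isOpen_iff.1 hN s hsN
  obtain ⟨r3, hr3, hgood⟩ := good_of_thick K hfin s (hnov s hsQ) (hthn s hsball1)
  set ε := min ε1 r3 with hε
  have hε0 : 0 < ε := lt_min hε1 hr3
  have hQ' : IsPreconnected (p ⁻¹' (Metric.ball s ε \ {s})) :=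
    mono_preimage hcl hs hfib (hgood ε hε0 (min_le_right _ _))
  have hbA : p ⁻¹' (Metric.ball s ε) ⊆ A := by
    intro w hw
    apply hNA
    apply hε1N
    exact Metric.ball_subset_ball (min_le_left _ _) hw
  have hFne : (p ⁻¹' {s}).Nonempty := ⟨_, hx0s⟩
  have hFc : IsCompact (p ⁻¹' {s}) := (isClosed_singleton.preimage hp).isCompact
  obtain ⟨c, hcF, hcmin⟩ := hFc.exists_isMinOn hFne hc1.continuousOn
  obtain ⟨d, hdF, hdmax⟩ := hFc.exists_isMaxOn hFne hc1.continuousOn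
  have hbopen : IsOpen (p ⁻¹' (Metric.ball s ε)) := Metric.isOpen_ball.preimage hp
  have hpt : ∀ w, p w = s → ∃ δ > 0, ∀ x, |x - w.1.1| < δ →
      x ∈ Icc (0:ℝ) 1 ∧ ga k x ∈ p ⁻¹' (Metric.ball s ε) := by
    intro w hw
    obtain ⟨a1, a2, a3⟩ := hfs w hw
    have hwg : ga k w.1.1 = w := by
      apply Subtype.ext
      rw [ga_val (hx01 _ ⟨a1.le, a2.le⟩), ← a3]
    have ho : IsOpen ((ga k) ⁻¹' (p ⁻¹' (Metric.ball s ε))) := hbopen.preimage (ga_cont k)
    have hmem : w.1.1 ∈ (ga k) ⁻¹' (p ⁻¹' (Metric.ball s ε)) := by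
      show p (ga k w.1.1) ∈ Metric.ball s ε
      rw [hwg, hw]; exact Metric.mem_ball_self hε0
    obtain ⟨δ1, hδ1, hb1⟩ := Metric.isOpen_iff.1 ho _ hmem
    refine ⟨min δ1 (min (w.1.1 - l k) (r k - w.1.1)), lt_min hδ1 (lt_min (by linarith)
      (by linarith)), fun x hx => ?_⟩
    have e1 : |x - w.1.1| < δ1 := lt_of_lt_of_le hx (min_le_left _ _)
    have e2 : |x - w.1.1| < w.1.1 - l k :=
      lt_of_lt_of_le hx ((min_le_right _ _).trans (min_le_left _ _))
    have e3 : |x - w.1.1| < r k - w.1.1 :=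
      lt_of_lt_of_le hx ((min_le_right _ _).trans (min_le_right _ _))
    rw [abs_lt] at e2 e3
    refine ⟨hx01 x ⟨by linarith, by linarith⟩, hb1 ?_⟩
    rw [Metric.mem_ball, Real.dist_eq]; exact e1
  obtain ⟨δ1, hδ1, hb1⟩ := hpt c hcF
  obtain ⟨δ2, hδ2, hb2⟩ := hpt d hdF
  obtain ⟨u1, u2⟩ := hb1 (c.1.1 - δ1 / 2) (by
    rw [show c.1.1 - δ1 / 2 - c.1.1 = -(δ1 / 2) by ring, abs_neg, abs_of_pos (by positivity)]
    linarith)
  obtain ⟨v1, v2⟩ := hb2 (d.1.1 + δ2 / 2) (by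
    rw [show d.1.1 + δ2 / 2 - d.1.1 = δ2 / 2 by ring, abs_of_pos (by positivity)]
    linarith)
  have hcd : c.1.1 ≤ d.1.1 := hcmin hdF
  have hu : ga k (c.1.1 - δ1 / 2) ∈ p ⁻¹' (Metric.ball s ε \ {s}) := by
    refine ⟨u2, ?_⟩
    intro h
    have h3 : c.1.1 ≤ (ga k (c.1.1 - δ1 / 2)).1.1 := hcmin h
    rw [ga_val u1] at h3
    simp only at h3
    linarith
  have hv : ga k (d.1.1 + δ2 / 2) ∈ p ⁻¹' (Metric.ball s ε \ {s}) := by
    refine ⟨v2, ?_⟩
    intro h
    have h3 : (ga k (d.1.1 + δ2 / 2)).1.1 ≤ d.1.1 := hdmax h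
    rw [ga_val v1] at h3
    simp only at h3
    linarith
  have hpre : IsPreconnected ((fun w : XX => w.1.1) '' (p ⁻¹' (Metric.ball s ε \ {s}))) :=
    hQ'.image _ hc1.continuousOn
  obtain ⟨w, hw, hwc⟩ := hpre.ordConnected.out
    (x := c.1.1 - δ1 / 2) ⟨_, hu, by simp only [ga_val u1]⟩
    (y := d.1.1 + δ2 / 2) ⟨_, hv, by simp only [ga_val v1]⟩
    (show c.1.1 ∈ Icc _ _ from ⟨by linarith, by linarith⟩)
  simp only at hwc
  have hwA : w ∈ A := hbA hw.1
  have hw2 := hAlev w hwA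
  have hc2' := (hfs c hcF).2.2
  have hwc' : w = c := by
    apply Subtype.ext
    apply Prod.ext hwc
    rw [hw2, hc2', hwc]
  apply hw.2
  rw [hwc']; exact hcF

end Pool.Agent.H333
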